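import Pool.Agent.Lib.MP_44626f_nt.Fib

/-!
Counting primitive Euler bricks.
-/

namespace Pool.Agent.Lib.MP_44626f_nt

open Finset

lemma card_le_of_fib {α β : Type*} [DecidableEq β] (R : Finset α) (f : α → β) (L : Finset β)
    (n : ℕ) (h : ∀ a₀ ∈ R, #{a ∈ R | f a = f a₀} ≤ n) : #{a ∈ R | f a ∈ L} ≤ n * #L := by
  refine card_le_mul_card_image_of_maps_to (f := f) (fun a ha => (mem_filter.1 ha).2) n
    fun b _ => ?_
  rcases ({a ∈ {a ∈ R | f a ∈ L} | f a = b} : Finset α).eq_empty_or_nonempty with h0 | ⟨a₀, h0⟩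
  · rw [h0]; simp
  · obtain ⟨h1, rfl⟩ := mem_filter.1 h0
    refine le_trans (card_le_card fun a ha => ?_) (h a₀ (mem_filter.1 h1).1)
    exact mem_filter.2 ⟨(mem_filter.1 (mem_filter.1 ha).1).1, (mem_filter.1 ha).2⟩

lemma not_sq_two {ρ : ℚ} (h0 : 0 < ρ) : ¬IsSquare (ρ ^ 2 + ρ ^ 2) := by
  rintro ⟨r, hr⟩
  have h1 : IsSquare (2 : ℚ) := ⟨r / ρ, by field_simp; linear_combination hr⟩
  rw [Rat.isSquare_ofNat_iff] at h1
  exact Nat.prime_two.prime.not_isSquare h1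

lemma sq_ratio {x y z : ℕ} (hx : 0 < x) (h : IsSquare (y ^ 2 + z ^ 2)) :
    IsSquare (((y : ℚ) / x) ^ 2 + ((z : ℚ) / x) ^ 2) := by
  obtain ⟨r, hr⟩ := h
  have : (y : ℚ) ^ 2 + z ^ 2 = r * r := by exact_mod_cast hr
  exact ⟨r / x, by field_simp; linear_combination this⟩

lemma sq_ratio' {x y : ℕ} (hx : 0 < x) (h : IsSquare (x ^ 2 + y ^ 2)) :
    IsSquare (1 + ((y : ℚ) / x) ^ 2) := by
  have := sq_ratio hx h
  rwa [div_self (by positivity), one_pow] at this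

lemma HB_nat {u w : ℕ} {T : ℤ} (hw : 0 < w) (b1 : (u : ℤ) ≤ T) (b2 : (w : ℤ) ≤ T) :
    HB ((u : ℚ) / w) T := by
  simpa using HB_div (u := u) (w := w) (by exact_mod_cast hw.ne') (by simpa using b1)
    (by simpa using b2)

/-- The number of ratios of two edges of three-dimensional bricks. -/
lemma count_ratio (s : ℕ) : ∃ K : ℕ, ∀ V : ℕ, 2 ≤ V → ∀ X Y : ℕ, X ≤ V ^ s → X ^ 3 < (Y + 1) ^ 4 →
    ∀ R : Finset ℚ, (∀ ρ ∈ R, ∃ x y z : ℕ, 0 < x ∧ 0 < y ∧ 0 < z ∧ x ≤ X ∧ y ≤ X ∧ z ≤ X ∧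
      IsSquare (x ^ 2 + y ^ 2) ∧ IsSquare (x ^ 2 + z ^ 2) ∧ IsSquare (y ^ 2 + z ^ 2) ∧
      ρ = (y : ℚ) / x) → #R ≤ K * V ^ 2 * #(Lam Y) := by
  obtain ⟨K₁, hK₁⟩ := fib_one (s * 2)
  obtain ⟨K₂, hK₂⟩ := fib_two (s * 2)
  refine ⟨1 + K₁ + K₂ + K₂, fun V hV X Y hX hY R hR => ?_⟩
  have hV' : (2 : ℤ) ≤ V := by exact_mod_cast hV
  have hX' : (X : ℤ) ≤ (V : ℤ) ^ s := by exact_mod_cast hX
  have hU : (V : ℤ) ^ s ≤ (V : ℤ) ^ (s * 2) := pow_le_pow_right₀ (by linarith) (by omega)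
  set W := (V : ℤ) ^ (s * 2) with hW
  have h1 : ∀ ρ ∈ R, ∃ u v : ℚ, (0 < u ∧ u < 1 ∧ 0 < v ∧ v < 1 ∧ u ≠ v) ∧ ρ = (1 / u - u) / 2 ∧
      (HB u W ∧ HB (u * v) W ∧ HB (u / v) W ∧ HB ρ W ∧ HB ((1 / v - v) / 2) W) ∧
      (0 < ρ ∧ 0 < (1 / v - v) / 2 ∧ (1 / v - v) / 2 ≠ 1 ∧ IsSquare (1 + ρ ^ 2) ∧
        IsSquare (ρ ^ 2 + ((1 / v - v) / 2) ^ 2)) ∧
      (u ∈ Lam Y ∨ v ∈ Lam Y ∨ u * v ∈ Lam Y ∨ u / v ∈ Lam Y) := by
    intro ρ hρ
    obtain ⟨x, y, z, hx, hy, hz, bx, by', bz, s1, s2, s3, rfl⟩ := hR ρ hρ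
    obtain ⟨p, q, hp, hpq, hc, hd, e1⟩ := exists_param hx hy s1
    obtain ⟨p', q', hp', hpq', hc', hd', e2⟩ := exists_param hx hz s2
    have hq : 0 < q := by omega
    have hq' : 0 < q' := by omega
    have b1 : q ≤ X := (Nat.le_of_dvd hx ((Dvd.intro_left _ rfl).trans hd)).trans bx
    have b2 : q' ≤ X := (Nat.le_of_dvd hx ((Dvd.intro_left _ rfl).trans hd')).trans bx
    have b3 : ∀ a : ℕ, a ≤ X → (a : ℤ) ≤ W := fun a ha =>
      le_trans (by exact_mod_cast ha) (hX'.trans hU)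
    have b4 : ∀ a b : ℕ, a ≤ X → b ≤ X → ((a * b : ℕ) : ℤ) ≤ W := fun a b ha hb => by
      rw [hW, pow_mul, sq]
      exact_mod_cast Nat.mul_le_mul (ha.trans hX) (hb.trans hX)
    have s4 := sq_ratio hx s3
    have p1 : (0 : ℚ) < (y : ℚ) / x := by positivity
    have p2 : (0 : ℚ) < (z : ℚ) / x := by positivity
    refine ⟨p / q, p' / q', ⟨by positivity, ?_, by positivity, ?_, ?_⟩, e1, ⟨?_, ?_, ?_, ?_, ?_⟩,
      ⟨p1, e2 ▸ p2, ?_, sq_ratio' hx s1, e2 ▸ s4⟩,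
      four_cases hx hc hc' hd hd' (lt_of_le_of_lt (Nat.pow_le_pow_left bx 3) hY)⟩
    · rw [div_lt_one (by positivity)]; exact_mod_cast hpq
    · rw [div_lt_one (by positivity)]; exact_mod_cast hpq'
    · intro h
      rw [h, ← e2] at e1
      rw [e1] at s4
      exact not_sq_two p2 s4
    · exact HB_nat hq (b3 _ (by omega)) (b3 _ b1)
    · have := HB_nat (mul_pos hq hq') (b4 p p' (by omega) (by omega)) (b4 q q' b1 b2)
      convert this using 1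
      push_cast
      field_simp
    · have := HB_nat (mul_pos hq hp') (b4 p q' (by omega) b2) (b4 q p' b1 (by omega))
      convert this using 1
      push_cast
      field_simp
    · exact HB_nat hx (b3 _ by') (b3 _ bx)
    · rw [← e2]; exact HB_nat hx (b3 _ bz) (b3 _ bx)
    · rw [← e2]
      intro h
      have := sq_ratio' hx s2
      rw [h] at this
      exact not_sq_two one_pos (by simpa using this)
  choose! u v h1 using h1
  have hinj : Set.InjOn u R := fun ρ hρ ρ' hρ' h => by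
    rw [(h1 ρ hρ).2.1, (h1 ρ' hρ').2.1, h]
  have hsq : ∀ ρ ∈ R, IsSquare ((1 / u ρ - u ρ) ^ 2 + (1 / v ρ - v ρ) ^ 2) := fun ρ hρ => by
    obtain ⟨-, e, -, ⟨-, -, -, -, r, hr⟩, -⟩ := h1 ρ hρ
    refine ⟨2 * r, ?_⟩
    linear_combination 4 * hr - 4 * (ρ + (1 / u ρ - u ρ) / 2) * e
  have c1 := card_le_of_fib R u (Lam Y) 1 fun a₀ ha₀ => by
    refine card_le_one.2 fun a ha b hb => ?_
    exact hinj (mem_filter.1 ha).1 (mem_filter.1 hb).1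
      ((mem_filter.1 ha).2.trans (mem_filter.1 hb).2.symm)
  have c2 := card_le_of_fib R v (Lam Y) (K₁ * V ^ 2) fun a₀ ha₀ => by
    obtain ⟨-, -, ⟨-, -, -, -, b1⟩, ⟨-, b2, b3, -⟩, -⟩ := h1 a₀ ha₀
    refine hK₁ V hV _ b2 b3 b1 _ fun ρ hρ => ?_
    obtain ⟨hρ, e⟩ := mem_filter.1 hρ
    obtain ⟨-, -, ⟨-, -, -, d1, -⟩, ⟨d2, -, -, d3, d4⟩, -⟩ := h1 ρ hρ
    exact ⟨d2, d1, d3, e ▸ d4⟩
  have c3 := card_le_of_fib R (fun ρ => u ρ * v ρ) (Lam Y) (K₂ * V ^ 2) fun a₀ ha₀ => by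
    obtain ⟨⟨a1, a2, a3, a4, -⟩, -, ⟨-, b1, -⟩, -⟩ := h1 a₀ ha₀
    rw [← card_image_of_injOn (hinj.mono (coe_subset.2 (filter_subset _ _)))]
    refine hK₂ V hV _ (mul_pos a1 a3) (mul_lt_one_of_nonneg_of_lt_one_left a1.le a2 a4.le).ne b1 _
      fun t ht => ?_
    obtain ⟨ρ, hρ, rfl⟩ := mem_image.1 ht
    obtain ⟨hρ, e⟩ := mem_filter.1 hρ
    obtain ⟨⟨d1, -, d2, -⟩, -, ⟨d3, -⟩, -⟩ := h1 ρ hρ
    refine ⟨d1, d3, ?_⟩
    rw [← e]
    convert hsq ρ hρ using 2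
    field_simp
    ring
  have c4 := card_le_of_fib R (fun ρ => u ρ / v ρ) (Lam Y) (K₂ * V ^ 2) fun a₀ ha₀ => by
    obtain ⟨⟨a1, a2, a3, a4, a5⟩, -, ⟨-, -, b1, -⟩, -⟩ := h1 a₀ ha₀
    rw [← card_image_of_injOn (hinj.mono (coe_subset.2 (filter_subset _ _)))]
    refine hK₂ V hV _ (div_pos a1 a3) (fun h => a5 (eq_of_div_eq_one h)) b1 _ fun t ht => ?_
    obtain ⟨ρ, hρ, rfl⟩ := mem_image.1 ht
    obtain ⟨hρ, e⟩ := mem_filter.1 hρ
    obtain ⟨⟨d1, -, d2, -⟩, -, ⟨d3, -⟩, -⟩ := h1 ρ hρ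
    refine ⟨d1, d3, ?_⟩
    rw [← e]
    convert hsq ρ hρ using 2
    field_simp
  have c5 : R ⊆ {a ∈ R | u a ∈ Lam Y} ∪ {a ∈ R | v a ∈ Lam Y} ∪ {a ∈ R | u a * v a ∈ Lam Y} ∪
      {a ∈ R | u a / v a ∈ Lam Y} := by
    intro ρ hρ
    have := (h1 ρ hρ).2.2.2.2
    simp only [mem_union, mem_filter, hρ, true_and]
    tauto
  have c6 := (card_le_card c5).trans ((card_union_le _ _).trans (Nat.add_le_add_right
    ((card_union_le _ _).trans (Nat.add_le_add_right (card_union_le _ _) _)) _))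
  have c7 : 1 * #(Lam Y) ≤ V ^ 2 * #(Lam Y) :=
    Nat.mul_le_mul_right _ (Nat.one_le_pow _ _ (by omega))
  nlinarith

lemma prim_eq {ι : Type*} [Fintype ι] {x x' : ι → ℕ} (i₀ : ι) (h0 : 0 < x i₀) (h0' : 0 < x' i₀)
    (hx : univ.gcd x = 1) (hx' : univ.gcd x' = 1)
    (h : ∀ i, (x i : ℚ) / x i₀ = (x' i : ℚ) / x' i₀) : x = x' := by
  classical
  have h1 : ∀ i, x i * x' i₀ = x' i * x i₀ := fun i => by
    have := h i
    rw [div_eq_div_iff (by positivity) (by positivity)] at this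
    exact_mod_cast this
  have h2 : x' i₀ = x i₀ := by
    have a1 := Finset.gcd_mul_right (s := univ) (f := x) (a := x' i₀)
    have a2 := Finset.gcd_mul_right (s := univ) (f := x') (a := x i₀)
    simp only [h1] at a1
    rw [a1, hx, hx'] at a2
    simpa using a2
  funext i
  have := h1 i
  rw [h2] at this
  exact Nat.eq_of_mul_eq_mul_right h0 this

/-- The number of primitive bricks in terms of the auxiliary parameters. -/
lemma count_brick {ι : Type*} [Fintype ι] {i₀ i₁ i₂ : ι} (h01 : i₀ ≠ i₁) (h02 : i₀ ≠ i₂)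
    (h12 : i₁ ≠ i₂) (s : ℕ) : ∃ K : ℕ, ∀ V : ℕ, 2 ≤ V → ∀ X Y : ℕ, X ≤ V ^ s →
      X ^ 3 < (Y + 1) ^ 4 → ∀ B : Finset (ι → ℕ), (∀ x ∈ B, (∀ i, 0 < x i ∧ x i ≤ X) ∧
        univ.gcd x = 1 ∧ ∀ i j, i ≠ j → IsSquare (x i ^ 2 + x j ^ 2)) →
        #B ≤ K * V ^ (2 * Fintype.card ι + 2) * #(Lam Y) := by
  classical
  obtain ⟨K₁, hK₁⟩ := fib_one s
  obtain ⟨K₂, hK₂⟩ := count_ratio s
  refine ⟨(K₁ + 2) ^ Fintype.card ι * K₂, fun V hV X Y hX hY B hB => ?_⟩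
  have hX' : (X : ℤ) ≤ (V : ℤ) ^ s := by exact_mod_cast hX
  have hH : ∀ x ∈ B, ∀ i, HB ((x i : ℚ) / x i₀) ((V : ℤ) ^ s) := fun x hx i =>
    HB_nat ((hB x hx).1 i₀).1 (le_trans (by exact_mod_cast ((hB x hx).1 i).2) hX')
      (le_trans (by exact_mod_cast ((hB x hx).1 i₀).2) hX')
  have hpos : ∀ x ∈ B, ∀ i, (0 : ℚ) < (x i : ℚ) / x i₀ := fun x hx i =>
    div_pos (by exact_mod_cast ((hB x hx).1 i).1) (by exact_mod_cast ((hB x hx).1 i₀).1)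
  have c1 : #(B.image fun x => (x i₁ : ℚ) / x i₀) ≤ K₂ * V ^ 2 * #(Lam Y) := by
    refine hK₂ V hV X Y hX hY _ fun ρ hρ => ?_
    obtain ⟨x, hx, rfl⟩ := mem_image.1 hρ
    obtain ⟨a1, -, a2⟩ := hB x hx
    exact ⟨x i₀, x i₁, x i₂, (a1 _).1, (a1 _).1, (a1 _).1, (a1 _).2, (a1 _).2, (a1 _).2,
      a2 _ _ h01, a2 _ _ h02, a2 _ _ h12, rfl⟩
  have c2 := card_le_mul_card_image (f := fun x : ι → ℕ => (x i₁ : ℚ) / x i₀) B
    (((K₁ + 2) * V ^ 2) ^ Fintype.card ι) fun ρ hρ => by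
      obtain ⟨x₀, hx₀, e⟩ := mem_image.1 hρ
      set Bρ := {x ∈ B | (x i₁ : ℚ) / x i₀ = ρ} with hBρ
      set G := (Bρ ×ˢ ({i | i ≠ i₀ ∧ i ≠ i₁} : Finset ι)).image
        fun z => (z.1 z.2 : ℚ) / z.1 i₀ with hG
      have a1 : #G ≤ K₁ * V ^ 2 := by
        refine hK₁ V hV ρ (e ▸ hpos x₀ hx₀ i₁) ?_ (e ▸ hH x₀ hx₀ i₁) _ fun t ht => ?_
        · intro h
          have := sq_ratio' ((hB x₀ hx₀).1 i₀).1 ((hB x₀ hx₀).2.2 _ _ h01)
          rw [e, h] at this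
          exact not_sq_two one_pos (by simpa using this)
        · obtain ⟨⟨x, i⟩, hz, rfl⟩ := mem_image.1 ht
          obtain ⟨hx, hi⟩ := mem_product.1 hz
          obtain ⟨hx, e'⟩ := mem_filter.1 hx
          obtain ⟨-, hi0, hi1⟩ := mem_filter.1 hi
          refine ⟨hpos x hx i, hH x hx i,
            sq_ratio' ((hB x hx).1 i₀).1 ((hB x hx).2.2 _ _ (Ne.symm hi0)), ?_⟩
          rw [← e']
          exact sq_ratio ((hB x hx).1 i₀).1 ((hB x hx).2.2 _ _ hi1)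
      have a2 : #(insert 1 (insert ρ G)) ≤ (K₁ + 2) * V ^ 2 := by
        have b1 := card_insert_le 1 (insert ρ G)
        have b2 := card_insert_le ρ G
        have b3 : 1 ≤ V ^ 2 := Nat.one_le_pow _ _ (by omega)
        nlinarith
      have a3 : #Bρ ≤ #(Fintype.piFinset fun _ : ι => insert 1 (insert ρ G)) := by
        refine card_le_card_of_injOn (fun x i => (x i : ℚ) / x i₀) (fun x hx => ?_) ?_
        · obtain ⟨hx', e'⟩ := mem_filter.1 hx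
          refine mem_coe.2 (Fintype.mem_piFinset.2 fun i => ?_)
          beta_reduce
          by_cases hi0 : i = i₀
          · have : (x i₀ : ℚ) ≠ 0 := by exact_mod_cast ((hB x hx').1 i₀).1.ne'
            rw [hi0, div_self this]
            exact mem_insert_self _ _
          by_cases hi1 : i = i₁
          · rw [hi1, e']
            exact mem_insert_of_mem (mem_insert_self _ _)
          refine mem_insert_of_mem (mem_insert_of_mem (mem_image.2 ⟨(x, i), ?_, rfl⟩))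
          exact mem_product.2 ⟨hx, mem_filter.2 ⟨mem_univ _, hi0, hi1⟩⟩
        · intro x hx x' hx' h
          have b1 := hB x (mem_filter.1 hx).1
          have b2 := hB x' (mem_filter.1 hx').1
          exact prim_eq i₀ (b1.1 _).1 (b2.1 _).1 b1.2.1 b2.2.1 (congrFun h)
      rw [Fintype.card_piFinset, prod_const, card_univ] at a3
      exact a3.trans (Nat.pow_le_pow_left a2 _)
  refine c2.trans ((Nat.mul_le_mul_left _ c1).trans (le_of_eq ?_))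
  rw [mul_pow, ← pow_mul, pow_add]
  ring

theorem count_main {ι : Type*} [Fintype ι] {i₀ i₁ i₂ : ι} (h01 : i₀ ≠ i₁) (h02 : i₀ ≠ i₂)
    (h12 : i₁ ≠ i₂) {ε : ℝ} (hε : 0 < ε) : ∃ C : ℝ, ∀ X : ℕ, 1 ≤ X →
      ∀ B : Finset (ι → ℕ), (∀ x ∈ B, (∀ i, 0 < x i ∧ x i ≤ X) ∧
        univ.gcd x = 1 ∧ ∀ i j, i ≠ j → IsSquare (x i ^ 2 + x j ^ 2)) →
        (#B : ℝ) ≤ C * (X : ℝ) ^ (3 / 4 + ε) := by
  obtain ⟨j, hj⟩ : ∃ j, j = 2 * Fintype.card ι + 2 := ⟨_, rfl⟩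
  obtain ⟨s, hs⟩ := exists_nat_gt (((j + 3 : ℕ) : ℝ) / ε)
  have hs0 : (0 : ℝ) < s := lt_of_le_of_lt (by positivity) hs
  have hs1 : s ≠ 0 := by rintro rfl; simp at hs0
  obtain ⟨K, hK⟩ := count_brick h01 h02 h12 s
  rw [← hj] at hK
  refine ⟨K * (s + 1) ^ 3 * 3 ^ (j + 3), fun X hX B hB => ?_⟩
  have hX1 : (1 : ℝ) ≤ X := by exact_mod_cast hX
  have hX0 : (0 : ℝ) < X := by linarith
  set t := (X : ℝ) ^ ((s : ℝ)⁻¹) with ht
  have ht1 : 1 ≤ t := Real.one_le_rpow hX1 (by positivity)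
  have ht2 : t ^ s = X := Real.rpow_inv_natCast_pow hX0.le hs1
  set V := ⌈t⌉₊ + 1 with hV
  have hV1 : t ≤ V := by rw [hV]; push_cast; linarith [Nat.le_ceil t]
  have hV2 : (V : ℝ) ≤ 3 * t := by
    rw [hV]; push_cast; linarith [Nat.ceil_lt_add_one (by linarith : 0 ≤ t)]
  have hV3 : 2 ≤ V := by
    have : 0 < ⌈t⌉₊ := Nat.ceil_pos.2 (by linarith)
    omega
  have hV4 : (X : ℝ) ≤ (V : ℝ) ^ s := by rw [← ht2]; gcongr
  have hV5 : (1 : ℝ) ≤ V := by linarith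
  set y := (X : ℝ) ^ (3 / 4 : ℝ) with hy
  have hy1 : 1 ≤ y := Real.one_le_rpow hX1 (by norm_num)
  have hy2 : y ^ 4 = (X : ℝ) ^ 3 := by
    rw [hy, ← Real.rpow_natCast, ← Real.rpow_mul hX0.le, ← Real.rpow_natCast]
    norm_num
  have hy3 : y ≤ X := by
    conv_rhs => rw [← Real.rpow_one X]
    exact Real.rpow_le_rpow_of_exponent_le hX1 (by norm_num)
  set Y := ⌊y⌋₊ with hY
  have hY1 : (Y : ℝ) ≤ y := Nat.floor_le (by linarith)
  have hY2 : X ^ 3 < (Y + 1) ^ 4 := by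
    have : (X : ℝ) ^ 3 < (Y + 1) ^ 4 := by
      rw [← hy2]
      exact pow_lt_pow_left₀ (Nat.lt_floor_add_one y) (by linarith) (by norm_num)
    exact_mod_cast this
  have hY3 : (1 : ℝ) ≤ Y := by exact_mod_cast Nat.le_floor (by simpa using hy1)
  have h1 : (#B : ℝ) ≤ K * V ^ j * #(Lam Y) := by
    exact_mod_cast hK V hV3 X Y (by exact_mod_cast hV4) hY2 B hB
  have h2 : 1 + Real.log Y ≤ (s + 1) * V := by
    have a1 : Real.log Y ≤ Real.log ((V : ℝ) ^ s) :=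
      Real.log_le_log (by linarith) (hY1.trans (hy3.trans hV4))
    rw [Real.log_pow] at a1
    have a2 : Real.log V ≤ V := (Real.log_le_sub_one_of_pos (by linarith)).trans (by linarith)
    nlinarith
  have h3 : 0 ≤ 1 + Real.log Y := by linarith [Real.log_nonneg hY3]
  have h4 : (#(Lam Y) : ℝ) ≤ y * ((s + 1) * V) ^ 3 := (card_Lam Y).trans (by gcongr)
  have h5 : t ^ (j + 3) ≤ (X : ℝ) ^ ε := by
    rw [ht, ← Real.rpow_natCast, ← Real.rpow_mul hX0.le]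
    refine Real.rpow_le_rpow_of_exponent_le hX1 ?_
    rw [div_lt_iff₀ hε] at hs
    rw [inv_mul_le_iff₀ hs0]
    exact hs.le
  calc (#B : ℝ) ≤ K * V ^ j * (y * ((s + 1) * V) ^ 3) := h1.trans (by gcongr)
    _ = K * (s + 1) ^ 3 * (V ^ (j + 3) * y) := by ring
    _ ≤ K * (s + 1) ^ 3 * ((3 * t) ^ (j + 3) * y) := by gcongr
    _ = K * (s + 1) ^ 3 * 3 ^ (j + 3) * (y * t ^ (j + 3)) := by ring
    _ ≤ K * (s + 1) ^ 3 * 3 ^ (j + 3) * (y * (X : ℝ) ^ ε) := by gcongr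
    _ = _ := by rw [Real.rpow_add hX0]

end Pool.Agent.Lib.MP_44626f_nt
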