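import Mathlib

/-!
The p-adic determinant method for the graph of a rational function `N / D`.
-/

namespace Pool.Agent.Lib.MP_44626f_nt

open Polynomial Finset

/-- The rational number `x` has numerator and denominator bounded by `T`. -/
def HB (x : ℚ) (T : ℤ) : Prop := |x.num| ≤ T ∧ (x.den : ℤ) ≤ T

lemma HB.mono {x : ℚ} {T T' : ℤ} (h : HB x T) (hT : T ≤ T') : HB x T' :=
  ⟨h.1.trans hT, h.2.trans hT⟩

lemma HB.one_le {x : ℚ} {T : ℤ} (h : HB x T) : 1 ≤ T :=
  le_trans (by exact_mod_cast x.pos) h.2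

lemma sum_card_Ioi (K : ℕ) : 2 * ∑ i : Fin K, #(Ioi i) = K * (K - 1) := by
  simp only [Fin.card_Ioi]
  rw [Fin.sum_univ_eq_sum_range (fun i => K - 1 - i) K, Finset.sum_range_reflect (fun i => i) K,
    mul_comm, Finset.sum_range_id_mul_two]

/-- Values of polynomials at congruent points give a highly divisible determinant. -/
lemma pow_dvd_det_fin {R : Type*} [CommRing R] {K : ℕ} (π : R) (x : Fin K → R)
    (hx : ∀ i j, π ∣ x i - x j) (g : Fin K → R[X]) :
    π ^ (∑ i : Fin K, #(Ioi i)) ∣ (Matrix.of fun j c => (g c).eval (x j)).det := by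
  rcases subsingleton_or_nontrivial R with hR | hR
  · exact ⟨0, Subsingleton.elim _ _⟩
  set W : R[X] := ∏ j, (X - C (x j)) with hW
  have hWm : W.Monic := monic_prod_of_monic _ _ fun j _ => monic_X_sub_C _
  have hWd : W.natDegree = K := by
    rw [hW, natDegree_prod_of_monic _ _ fun j _ => monic_X_sub_C _]
    simp
  have hW0 : ∀ j, W.eval (x j) = 0 := fun j => by
    rw [hW, eval_prod]
    exact Finset.prod_eq_zero (Finset.mem_univ j) (by simp)
  have hmat : (Matrix.of fun j c => (g c).eval (x j)) =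
      Matrix.vandermonde x * Matrix.of fun (i : Fin K) c => (g c %ₘ W).coeff i := by
    ext j c
    have hK : 0 < K := Fin.pos j
    have h1 : (g c).eval (x j) = (g c %ₘ W).eval (x j) := by
      have := aeval_modByMonic_eq_self_of_root (p := g c) (q := W) (x := x j)
        (by simpa using hW0 j)
      simpa using this.symm
    have h2 : (g c %ₘ W).natDegree < K := by
      by_cases h0 : g c %ₘ W = 0
      · rw [h0]; simpa using hK
      · rw [← hWd]
        exact natDegree_lt_natDegree h0 (degree_modByMonic_lt _ hWm)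
    rw [Matrix.of_apply, h1, eval_eq_sum_range' h2, Matrix.mul_apply,
      ← Fin.sum_univ_eq_sum_range (fun i => (g c %ₘ W).coeff i * x j ^ i) K]
    refine Finset.sum_congr rfl fun i _ => ?_
    simp [Matrix.vandermonde, mul_comm]
  rw [hmat, Matrix.det_mul, Matrix.det_vandermonde]
  refine Dvd.dvd.mul_right ?_ _
  rw [← Finset.prod_pow_eq_pow_sum]
  refine Finset.prod_dvd_prod_of_dvd _ _ fun i _ => ?_
  rw [← Finset.prod_const]
  exact Finset.prod_dvd_prod_of_dvd _ _ fun j _ => hx j i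

lemma pow_dvd_det {R ι : Type*} [CommRing R] [Fintype ι] [DecidableEq ι] (π : R) (x : ι → R)
    (hx : ∀ i j, π ∣ x i - x j) (g : ι → R[X]) :
    π ^ (∑ i : Fin (Fintype.card ι), #(Ioi i)) ∣ (Matrix.of fun j c => (g c).eval (x j)).det := by
  let e := (Fintype.equivFin ι).symm
  rw [← Matrix.det_submatrix_equiv_self e]
  exact pow_dvd_det_fin π (fun j => x (e j)) (fun i j => hx _ _) (fun c => g (e c))

/-- If all maximal minors vanish there is a linear relation between the columns. -/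
lemma exists_rel {σ ι : Type*} [Fintype ι] [DecidableEq ι] (v : σ → ι → ℚ)
    (h : ∀ f : ι → σ, (Matrix.of fun j c => v (f j) c).det = 0) :
    ∃ a : ι → ℚ, a ≠ 0 ∧ ∀ s, ∑ c, a c * v s c = 0 := by
  by_cases hs : Submodule.span ℚ (Set.range v) = ⊤
  · exfalso
    obtain ⟨κ, a, -, hsp, hli⟩ := exists_linearIndependent' ℚ v
    let b : Module.Basis κ ℚ (ι → ℚ) := Module.Basis.mk hli (by rw [hsp, hs])
    let e : κ ≃ ι := b.indexEquiv (Pi.basisFun ℚ ι)
    have hli' : LinearIndependent ℚ (Matrix.of fun j c => v (a (e.symm j)) c).row :=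
      hli.comp e.symm e.symm.injective
    rw [Matrix.linearIndependent_rows_iff_isUnit, Matrix.isUnit_iff_isUnit_det,
      h (fun j => a (e.symm j))] at hli'
    exact not_isUnit_zero hli'
  · obtain ⟨φ, hφ, hφ0⟩ := Submodule.exists_dual_map_eq_bot_of_lt_top
      (lt_top_iff_ne_top.mpr hs) inferInstance
    refine ⟨fun c => φ (Pi.single c 1), fun h0 => hφ ?_, fun s => ?_⟩
    · refine (Pi.basisFun ℚ ι).ext fun c => ?_
      simpa using congrFun h0 c
    · have h1 : φ (v s) = 0 := by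
        have : φ (v s) ∈ Submodule.map φ (Submodule.span ℚ (Set.range v)) :=
          Submodule.mem_map_of_mem (Submodule.subset_span ⟨s, rfl⟩)
        rwa [hφ0, Submodule.mem_bot] at this
      rw [← h1]
      conv_rhs => rw [pi_eq_sum_univ' (v s), map_sum]
      refine Finset.sum_congr rfl fun c _ => ?_
      rw [map_smul, smul_eq_mul, mul_comm]

/-- The polynomials `N^i D^(n-i)` are independent over polynomials of degree less than `deg N`. -/
lemma indep_pow {N D : ℚ[X]} (hcop : IsCoprime N D) (hN : N ≠ 0) :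
    ∀ (n : ℕ) (c : Fin (n + 1) → ℚ[X]), (∀ i, (c i).degree < N.degree) →
      ∑ i, c i * N ^ (i : ℕ) * D ^ (n - i) = 0 → ∀ i, c i = 0 := by
  intro n
  induction n with
  | zero =>
    intro c _ h i
    obtain rfl : i = 0 := Subsingleton.elim (α := Fin 1) _ _
    simpa using h
  | succ n ih =>
    intro c hc h
    rw [Fin.sum_univ_succ] at h
    have h1 : ∑ i : Fin (n + 1), c i.succ * N ^ (i.succ : ℕ) * D ^ (n + 1 - i.succ) =
        N * ∑ i : Fin (n + 1), c i.succ * N ^ (i : ℕ) * D ^ (n - i) := by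
      rw [Finset.mul_sum]
      refine Finset.sum_congr rfl fun i _ => ?_
      rw [Fin.val_succ, Nat.add_sub_add_right]; ring
    rw [h1] at h
    have h2 : N ∣ c 0 := by
      refine (hcop.pow_right (n := n + 1)).dvd_of_dvd_mul_right ?_
      refine ⟨-∑ i : Fin (n + 1), c i.succ * N ^ (i : ℕ) * D ^ (n - i), ?_⟩
      simp only [Fin.val_zero, pow_zero, mul_one, Nat.sub_zero] at h
      linear_combination h
    have h3 : c 0 = 0 := eq_zero_of_dvd_of_degree_lt h2 (hc 0)
    rw [h3] at h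
    simp only [zero_mul, zero_add, mul_eq_zero, hN, false_or] at h
    have h4 := ih (fun i => c i.succ) (fun i => hc _) h
    intro i
    exact Fin.cases h3 h4 i

/-- The determinant method: rational points of bounded height on the graph of `N / D` lying in one
residue class modulo a large prime are few. -/
lemma det_method {N D : ℤ[X]} {e m Dg : ℕ} (hm : 0 < m)
    (hN : m ≤ (N.map (Int.castRingHom ℚ)).natDegree) (hNe : N.natDegree ≤ e)
    (hDe : D.natDegree ≤ e)
    (hcop : IsCoprime (N.map (Int.castRingHom ℚ)) (D.map (Int.castRingHom ℚ)))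
    {p : ℕ} (hp : p.Prime) {A B : ℤ} (T : Finset ℚ) (n d : ℚ → ℤ)
    (hev : ∀ ξ ∈ T, ∀ (R : Type) [CommRing R] (x : R), (ξ.den : R) * x = ξ.num →
      (n ξ : R) = (ξ.den : R) ^ e * aeval x N ∧ (d ξ : R) = (ξ.den : R) ^ e * aeval x D)
    (hd : ∀ ξ ∈ T, ¬(p : ℤ) ∣ d ξ) (hb : ∀ ξ ∈ T, ¬(p : ℤ) ∣ ξ.den)
    (hcl : ∀ ξ ∈ T, ∀ ξ' ∈ T, (p : ℤ) ∣ ξ.num * ξ'.den - ξ'.num * ξ.den)
    (hB : ∀ ξ ∈ T, HB ξ B) (hA : ∀ ξ ∈ T, HB ((n ξ : ℚ) / d ξ) A)
    (hbig : ((((Dg + 1) * m : ℕ) : ℤ) * (A ^ Dg * B ^ m)) ^ 2 < (p : ℤ) ^ ((Dg + 1) * m - 1)) :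
    #T ≤ m + Dg * e := by
  classical
  let ι := Fin (Dg + 1) × Fin m
  have hcard : Fintype.card ι = (Dg + 1) * m := by simp [ι]
  set K := (Dg + 1) * m with hK
  have hK0 : K ≠ 0 := by positivity
  have hd0 : ∀ ξ ∈ T, d ξ ≠ 0 := fun ξ hξ h => hd ξ hξ (by simp [h])
  let F : ℚ → ℚ := fun ξ => (n ξ : ℚ) / d ξ
  let v : T → ι → ℚ := fun ξ c => F ξ ^ (c.1 : ℕ) * (ξ : ℚ) ^ (c.2 : ℕ)
  have hdet : ∀ f : ι → T, (Matrix.of fun j c => v (f j) c).det = 0 := by
    intro f
    let Mi : Matrix ι ι ℤ := Matrix.of fun j c =>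
      (F (f j)).num ^ (c.1 : ℕ) * ((F (f j)).den : ℤ) ^ (Dg - c.1) *
        ((f j : ℚ).num ^ (c.2 : ℕ) * ((f j : ℚ).den : ℤ) ^ (m - c.2))
    have h1 : Mi.det = 0 := by
      set M := ∑ i : Fin (Fintype.card ι), #(Ioi i) with hM
      have hM2 : 2 * M = K * (K - 1) := by rw [hM, sum_card_Ioi, hcard]
      have hunit : ∀ z : ℤ, ¬(p : ℤ) ∣ z → IsUnit (z : ZMod (p ^ M)) := by
        intro z hz
        rw [ZMod.coe_int_isUnit_iff_isCoprime]
        push_cast
        exact ((Nat.prime_iff_prime_int.1 hp).irreducible.coprime_iff_not_dvd.2 hz).pow_left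
      have hy : ∀ j, ∃ y : ZMod (p ^ M), (((f j : ℚ).den : ℕ) : ZMod (p ^ M)) * y = 1 := fun j => by
        have := (hunit _ (hb _ (f j).2)).exists_right_inv
        simpa using this
      choose y hy using hy
      let x : ι → ZMod (p ^ M) := fun j => ((f j : ℚ).num : ZMod (p ^ M)) * y j
      have hx : ∀ j, (((f j : ℚ).den : ℕ) : ZMod (p ^ M)) * x j = (f j : ℚ).num := fun j => by
        simp only [x]
        linear_combination ((f j : ℚ).num : ZMod (p ^ M)) * hy j
      have hxx : ∀ i j, (p : ZMod (p ^ M)) ∣ x i - x j := by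
        intro i j
        obtain ⟨t, ht⟩ := hcl _ (f i).2 _ (f j).2
        have ht' := congrArg (Int.cast : ℤ → ZMod (p ^ M)) ht
        push_cast at ht'
        refine ⟨t * y i * y j, ?_⟩
        simp only [x]
        linear_combination (y i * y j) * ht' - (((f i : ℚ).num : ZMod (p ^ M)) * y i) * hy j +
          (((f j : ℚ).num : ZMod (p ^ M)) * y j) * hy i
      let g : ι → (ZMod (p ^ M))[X] := fun c =>
        (N ^ (c.1 : ℕ) * D ^ (Dg - c.1) * X ^ (c.2 : ℕ)).map (Int.castRingHom _)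
      have h2 := pow_dvd_det (p : ZMod (p ^ M)) x hxx g
      have h3 : (p : ZMod (p ^ M)) ^ M = 0 := by
        rw [← Nat.cast_pow, ZMod.natCast_self]
      rw [← hM, h3, zero_dvd_iff] at h2
      have h4 : (Matrix.of fun j c => (d (f j) : ZMod (p ^ M)) ^ Dg *
          (Mi.map (Int.castRingHom (ZMod (p ^ M)))) j c) =
          Matrix.of fun j c => ((((F (f j)).den : ℕ) : ZMod (p ^ M)) ^ Dg *
            (((f j : ℚ).den : ℕ) : ZMod (p ^ M)) ^ (e * Dg + m)) *
            (Matrix.of fun j c => (g c).eval (x j)) j c := by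
        ext j c
        obtain ⟨hn', hd'⟩ := hev _ (f j).2 _ (x j) (hx j)
        have h5 : (F (f j)).num * d (f j) = (F (f j)).den * n (f j) := by
          have h6 : (d (f j) : ℚ) ≠ 0 := by exact_mod_cast hd0 _ (f j).2
          have h7 : ((F (f j)).num : ℚ) = (n (f j) : ℚ) / d (f j) * (F (f j)).den :=
            (Rat.mul_den_eq_num _).symm
          have : (((F (f j)).num * d (f j) : ℤ) : ℚ) = (((F (f j)).den * n (f j) : ℤ) : ℚ) := by
            push_cast
            rw [h7]; field_simp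
          exact_mod_cast this
        have h5' := congrArg (Int.cast : ℤ → ZMod (p ^ M)) h5
        push_cast at h5'
        obtain ⟨i', hi'⟩ : ∃ i', Dg = c.1 + i' := ⟨Dg - c.1, by have := c.1.2; omega⟩
        obtain ⟨l', hl'⟩ : ∃ l', m = c.2 + l' := ⟨m - c.2, by have := c.2.2; omega⟩
        have e1 : Dg - c.1 = i' := by omega
        have e2 : m - c.2 = l' := by omega
        have e3 : (g c).eval (x j) =
            aeval (x j) N ^ (c.1 : ℕ) * aeval (x j) D ^ i' * x j ^ (c.2 : ℕ) := by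
          simp only [g, e1, eval_map, aeval_def, eval₂_mul, eval₂_pow, eval₂_X, algebraMap_int_eq]
        simp only [Matrix.of_apply, Matrix.map_apply, Mi, e1, e2, e3, eq_intCast]
        push_cast
        rw [← hx j]
        generalize (c.1 : ℕ) = i at hi' ⊢
        generalize (c.2 : ℕ) = l at hl' ⊢
        calc _ = ((((F (f j)).num : ℤ) : ZMod (p ^ M)) * d (f j)) ^ i *
              ((d (f j) : ZMod (p ^ M)) * ((F (f j)).den : ℕ)) ^ i' *
              ((((f j : ℚ).den : ℕ) : ZMod (p ^ M)) ^ (l + l') * x j ^ l) := by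
              rw [hi']; ring
          _ = _ := by
              rw [h5', hn', hd', hi', hl']; ring
      have h5 := congrArg Matrix.det h4
      rw [Matrix.det_mul_column, Matrix.det_mul_column, h2, mul_zero] at h5
      have h6 : IsUnit (∏ j, (d (f j) : ZMod (p ^ M)) ^ Dg) :=
        IsUnit.prod_univ_iff.2 fun j => (hunit _ (hd _ (f j).2)).pow _
      rw [h6.mul_right_eq_zero, ← RingHom.mapMatrix_apply, ← RingHom.map_det, eq_intCast,
        ZMod.intCast_zmod_eq_zero_iff_dvd] at h5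
      refine Int.eq_zero_of_abs_lt_dvd h5 ?_
      have h7 : ∀ j c, AbsoluteValue.abs (Mi j c) ≤ A ^ Dg * B ^ m := by
        intro j c
        obtain ⟨a1, a2⟩ := hA _ (f j).2
        obtain ⟨b1, b2⟩ := hB _ (f j).2
        have a0 := (hA _ (f j).2).one_le
        have b0 := (hB _ (f j).2).one_le
        obtain ⟨i', hi'⟩ : ∃ i', Dg = c.1 + i' := ⟨Dg - c.1, by have := c.1.2; omega⟩
        obtain ⟨l', hl'⟩ : ∃ l', m = c.2 + l' := ⟨m - c.2, by have := c.2.2; omega⟩
        have e1 : Dg - c.1 = i' := by omega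
        have e2 : m - c.2 = l' := by omega
        simp only [AbsoluteValue.abs_apply, Mi, Matrix.of_apply, e1, e2, abs_mul, abs_pow,
          Nat.abs_cast]
        generalize (c.1 : ℕ) = i at hi' ⊢
        generalize (c.2 : ℕ) = l at hl' ⊢
        rw [hi', hl', pow_add, pow_add]
        gcongr
      have h8 := Matrix.det_le h7
      rw [AbsoluteValue.abs_apply, hcard, nsmul_eq_mul] at h8
      have h9 : 0 ≤ A ^ Dg * B ^ m := le_trans (AbsoluteValue.nonneg _ _)
        (h7 (0, ⟨0, hm⟩) (0, ⟨0, hm⟩))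
      have h10 : |Mi.det| ≤ ((K : ℤ) * (A ^ Dg * B ^ m)) ^ K := by
        refine h8.trans ?_
        rw [mul_pow (K : ℤ)]
        gcongr
        exact_mod_cast Nat.factorial_le_pow K
      refine lt_of_le_of_lt h10 (lt_of_pow_lt_pow_left₀ 2 (by positivity) ?_)
      push_cast
      rw [← pow_mul (p : ℤ), mul_comm M 2, hM2, mul_comm K (K - 1), pow_mul (p : ℤ), ← pow_mul,
        mul_comm K 2, pow_mul]
      exact pow_lt_pow_left₀ hbig (by positivity) hK0
    have h2 : Mi.map (Int.castRingHom ℚ) = Matrix.of fun j c =>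
        (((F (f j)).den : ℚ) ^ Dg * ((f j : ℚ).den : ℚ) ^ m) *
          (Matrix.of fun j c => v (f j) c) j c := by
      ext j c
      obtain ⟨i', hi'⟩ : ∃ i', Dg = c.1 + i' := ⟨Dg - c.1, by have := c.1.2; omega⟩
      obtain ⟨l', hl'⟩ : ∃ l', m = c.2 + l' := ⟨m - c.2, by have := c.2.2; omega⟩
      have e1 : Dg - c.1 = i' := by omega
      have e2 : m - c.2 = l' := by omega
      simp only [Matrix.of_apply, Matrix.map_apply, Mi, v, e1, e2, eq_intCast]
      push_cast
      rw [← Rat.mul_den_eq_num (F (f j)), ← Rat.mul_den_eq_num (f j : ℚ)]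
      generalize (c.1 : ℕ) = i at hi' ⊢
      generalize (c.2 : ℕ) = l at hl' ⊢
      generalize ((F (f j)).den : ℚ) = w
      generalize ((f j : ℚ).den : ℚ) = b
      rw [hi', hl']; ring
    have h3 := congrArg Matrix.det h2
    rw [Matrix.det_mul_column, ← RingHom.mapMatrix_apply, ← RingHom.map_det, h1, map_zero] at h3
    refine (mul_eq_zero.1 h3.symm).resolve_left ?_
    exact Finset.prod_ne_zero_iff.2 fun j _ => by positivity
  obtain ⟨a, ha0, ha⟩ := exists_rel v hdet
  set N' := N.map (Int.castRingHom ℚ) with hN'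
  set D' := D.map (Int.castRingHom ℚ) with hD'
  have hN0 : N' ≠ 0 := by rintro h; rw [h] at hN; simp at hN; omega
  let c : Fin (Dg + 1) → ℚ[X] := fun i => ∑ l : Fin m, C (a (i, l)) * X ^ (l : ℕ)
  have hc : ∀ i, (c i).degree < m := fun i => degree_sum_fin_lt _
  let G : ℚ[X] := ∑ i, c i * N' ^ (i : ℕ) * D' ^ (Dg - i)
  have hG : G ≠ 0 := by
    intro h
    have h1 := indep_pow hcop hN0 Dg c (fun i => (hc i).trans_le (by
      rw [degree_eq_natDegree hN0]; exact_mod_cast hN)) h
    apply ha0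
    funext ⟨i, l⟩
    have h2 := congrArg (fun q => q.coeff l) (h1 i)
    simpa [c, finsetSum_coeff, coeff_C_mul_X_pow, Fin.val_inj] using h2
  have hGd : G.natDegree ≤ m + Dg * e := by
    refine natDegree_sum_le_of_forall_le _ _ fun i _ => ?_
    have h1 : (c i).natDegree ≤ m := natDegree_le_of_degree_le (hc i).le
    have h2 : N'.natDegree ≤ e := natDegree_map_le.trans hNe
    have h3 : D'.natDegree ≤ e := natDegree_map_le.trans hDe
    have h4 : (N' ^ (i : ℕ)).natDegree ≤ i * e :=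
      natDegree_pow_le.trans (Nat.mul_le_mul_left _ h2)
    have h5 : (D' ^ (Dg - i)).natDegree ≤ (Dg - i) * e :=
      natDegree_pow_le.trans (Nat.mul_le_mul_left _ h3)
    have h6 : (i : ℕ) * e + (Dg - i) * e = Dg * e := by
      rw [← add_mul]; congr 1; have := i.2; omega
    refine natDegree_mul_le.trans ((Nat.add_le_add_right natDegree_mul_le _).trans ?_)
    omega
  refine le_trans (card_le_degree_of_subset_roots fun ξ hξ => ?_) hGd
  have hξ' : ξ ∈ T := hξ
  rw [mem_roots hG, IsRoot.def]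
  obtain ⟨hn', hd'⟩ := hev ξ hξ' ℚ ξ (by rw [mul_comm, Rat.mul_den_eq_num])
  have e1 : N'.eval ξ = aeval ξ N := by rw [hN', eval_map, aeval_def, algebraMap_int_eq]
  have e2 : D'.eval ξ = aeval ξ D := by rw [hD', eval_map, aeval_def, algebraMap_int_eq]
  have h1 : (d ξ : ℚ) ≠ 0 := by exact_mod_cast hd0 _ hξ'
  have h2 : N'.eval ξ = F ξ * D'.eval ξ := by
    have h3 : ((ξ.den : ℚ)) ^ e ≠ 0 := by positivity
    have h4 : aeval ξ D ≠ 0 := fun h => h1 (by rw [hd', h, mul_zero])
    simp only [F, e1, e2, hn', hd']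
    field_simp
  have h3 := ha ⟨ξ, hξ'⟩
  rw [Fintype.sum_prod_type] at h3
  simp only [G, c, eval_finsetSum, eval_mul, eval_pow, eval_C, eval_X, h2]
  rw [← mul_zero (D'.eval ξ ^ Dg), ← h3, Finset.mul_sum]
  refine Finset.sum_congr rfl fun i _ => ?_
  rw [Finset.mul_sum, Finset.sum_mul, Finset.sum_mul]
  refine Finset.sum_congr rfl fun l _ => ?_
  obtain ⟨i', hi'⟩ : ∃ i', Dg = i + i' := ⟨Dg - i, by have := i.2; omega⟩
  have e3 : Dg - i = i' := by omega
  simp only [v, e3]
  generalize a (i, l) = z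
  generalize (i : ℕ) = i₀ at hi' ⊢
  rw [hi']; ring

end Pool.Agent.Lib.MP_44626f_nt
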