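import Pool.Agent.Lib.MP_44626f_nt.Group

/-!
A uniform bound for the number of rational points of bounded height on elliptic curves with full
rational two-torsion.
-/

namespace Pool.Agent.Lib.MP_44626f_nt

open Finset WeierstrassCurve WeierstrassCurve.Affine Pool.Agent.Lib.MP_788af2_nt

/-- The two-descent homomorphism. -/
lemma exists_descent {e : Fin 3 → ℤ} (he : dsc e ≠ 0) :
    ∃ Φ : (cvE e).Point →+ (Fin 2 × Option (dsc e).natAbs.primeFactors → ZMod 2),
      ∀ P, Φ P = 0 → ∃ Q, P = 2 • Q := by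
  classical
  set D := (dsc e).natAbs.primeFactors with hD
  let F₁ : Option D → ℤ → ZMod 2 := fun o => o.elim qS fun l => qV l
  have hF₁ : ∀ o, IsQF (F₁ o) := by
    rintro (_ | l)
    · exact isQF_qS
    · exact isQF_qV (Nat.prime_of_mem_primeFactors l.2)
  let Φ : (cvE e).Point →+ (Fin 2 × Option D → ZMod 2) :=
    AddMonoidHom.pi fun x => qfHom he x.1.castSucc (hF₁ x.2)
  have hΦ : ∀ P x, Φ P x = F₁ x.2 (rep (dl e x.1.castSucc P)) := fun _ _ => rfl
  have hker : ∀ P, Φ P = 0 → ∃ Q, P = 2 • Q := by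
    intro P hP
    have key : ∀ m : Fin 2, IsSquare (dl e m.castSucc P) := by
      intro m
      have hne := dl_ne_zero he m.castSucc P
      have hsq : IsSquare (rep (dl e m.castSucc P)) := by
        apply isSquare_of_even_val
        · have := congrFun hP (m, none)
          rw [hΦ] at this
          simp only [F₁, Option.elim, qS, Pi.zero_apply, ite_eq_right_iff, one_ne_zero] at this
          exact lt_of_le_of_ne (not_lt.1 this) (rep_ne_zero hne).symm
        · intro l hl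
          rw [← qV_eq_zero]
          by_cases hlD : l ∈ D
          · exact congrFun hP (m, some ⟨l, hlD⟩)
          have hd : ¬(l : ℤ) ∣ dsc e := by
            intro h
            exact hlD (Nat.mem_primeFactors.2 ⟨hl, Int.natCast_dvd.1 h, Int.natAbs_ne_zero.2 he⟩)
          have : Fact l.Prime := ⟨hl⟩
          have hpr := Nat.prime_iff_prime_int.1 hl
          have hd' : ∀ i j : Fin 3, i ≠ j → ¬(l : ℤ) ∣ e i - e j := by
            intro i j hij h
            apply hd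
            have h' : (l : ℤ) ∣ e j - e i := dvd_sub_comm.1 h
            unfold dsc
            fin_cases i <;> fin_cases j <;> simp at hij h h' <;>
              first
              | exact (h.mul_right _).mul_right _
              | exact (h'.mul_right _).mul_right _
              | exact (h.mul_left _).mul_right _
              | exact (h'.mul_left _).mul_right _
              | exact h.mul_left _
              | exact h'.mul_left _
          by_cases hP' : ∀ x y h, P = Point.some x y h → ∀ m, x ≠ e m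
          · obtain ⟨a, b, c, α, hac, hα, hne, hb, hF⟩ := point_data P hP'
            rw [hF _ _ (isQF_qV hl), qV_eq_zero]
            generalize m.castSucc = m
            refine local_good (hne m) (hne (m + 1)) (hne (m + 2))
              (by rw [← fin3_prod_int, hb]) (c := c)
              (u := e m - e (m + 1)) (w := e m - e (m + 2))
              (by rw [hα, hα]; ring) (by rw [hα, hα]; ring) (hd' _ _ (fin3_ne2 m))
              (hd' _ _ (fin3_ne1 m)) ?_
            intro hc h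
            rw [hα] at h
            have : (l : ℤ) ∣ a := by
              have h2 : (l : ℤ) ∣ e m * c ^ 2 := (dvd_pow hc two_ne_zero).mul_left _
              simpa using dvd_add h h2
            exact hpr.not_isUnit (hac.isUnit_of_dvd' this hc)
          · push Not at hP'
            obtain ⟨x, y, h, rfl, i, rfl⟩ := hP'
            generalize m.castSucc = m
            have hr : ∀ n : ℤ, rep (n : ℚ) = n := by intro n; simp [rep]
            simp only [dl]
            split_ifs with hx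
            · rw [← Int.cast_sub, ← Int.cast_sub, ← Int.cast_mul, hr, qV,
                padicValInt.eq_zero_of_not_dvd, Nat.cast_zero]
              intro h
              rcases hpr.dvd_or_dvd h with h | h
              · exact hd' _ _ (fin3_ne1 m) h
              · exact hd' _ _ (fin3_ne2 m) h
            · rw [← Int.cast_sub, hr, qV, padicValInt.eq_zero_of_not_dvd, Nat.cast_zero]
              exact hd' _ _ (by rintro rfl; exact hx rfl)
      rw [← Rat.isSquare_intCast_iff, rep_cast] at hsq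
      obtain ⟨k, hk⟩ := hsq
      have hden : ((dl e m.castSucc P).den : ℚ) ≠ 0 := by simp
      refine ⟨k / (dl e m.castSucc P).den, ?_⟩
      field_simp
      linear_combination hk
    exact halve' he P (key 0) (key 1)
  exact ⟨Φ, hker⟩

lemma pow_omega_le {q n : ℕ} (hq : 1 ≤ q) (hn : n ≠ 0) : q ^ #n.primeFactors ≤ q ^ q * n := by
  have h1 : q ^ #n.primeFactors ≤ ∏ p ∈ n.primeFactors, ((if p < q then q else 1) * p) := by
    refine Finset.pow_card_le_prod _ _ _ fun p hp => ?_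
    have := (Nat.prime_of_mem_primeFactors hp).pos
    split_ifs with h
    · exact Nat.le_mul_of_pos_right _ this
    · omega
  refine h1.trans ?_
  rw [prod_mul_distrib]
  refine Nat.mul_le_mul ?_ (Nat.le_of_dvd (Nat.pos_of_ne_zero hn) (Nat.prod_primeFactors_dvd n))
  rw [← prod_filter, prod_const]
  refine Nat.pow_le_pow_right hq ?_
  refine (card_le_card (t := range q) fun p hp => ?_).trans (card_range q).le
  exact mem_range.2 (mem_filter.1 hp).2

lemma pow_omega_le' {q s n V : ℕ} (hq : 1 ≤ q) (hs : s ≠ 0) (hn : n ≠ 0) (h : n ≤ V ^ s) :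
    q ^ #n.primeFactors ≤ q ^ q ^ s * V := by
  refine (Nat.pow_le_pow_iff_left hs).1 ?_
  rw [← pow_mul, mul_comm, pow_mul, mul_pow, ← pow_mul q (q ^ s), mul_comm (q ^ s), pow_mul]
  exact (pow_omega_le (Nat.one_le_pow _ _ hq) hn).trans (Nat.mul_le_mul_left _ h)

/-- The uniform bound for curves with integral roots. -/
lemma count_int (s : ℕ) : ∃ K : ℕ, ∀ V : ℕ, 2 ≤ V → ∀ e : Fin 3 → ℤ, dsc e ≠ 0 →
    (∀ i, |e i| ≤ (V : ℤ) ^ s) → ∀ S : Finset ℚ,
      (∀ x ∈ S, HB x ((V : ℤ) ^ s) ∧ IsSquare ((x - e 0) * (x - e 1) * (x - e 2))) →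
        #S ≤ K * V ^ 2 := by
  classical
  obtain ⟨k, hk⟩ := lattes_count (2 + s * 3) (5 + (2 + s * 3) * 6)
  obtain ⟨K₁, hK₁⟩ := hk (5 + (2 + s * 3) * 6 + k * (4 + (2 + s * 3) * 2))
  refine ⟨(2 * K₁ + 1) * (4 ^ k * (4 ^ k) ^ (4 ^ k) ^ (3 + s * 3)), fun V hV e he hb S hS => ?_⟩
  have hV' : (2 : ℤ) ≤ V := by exact_mod_cast hV
  set U := (V : ℤ) ^ s with hU
  have hU1 : 1 ≤ U := one_le_pow₀ (by linarith)
  have hU2 : U ≤ U ^ 3 := le_self_pow₀ hU1 (by norm_num)
  have hU3 : U ^ 2 ≤ U ^ 3 := pow_le_pow_right₀ hU1 (by norm_num)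
  have hW : 4 * U ^ 3 ≤ (V : ℤ) ^ (2 + s * 3) := by
    rw [pow_add, pow_mul]
    have := two_pow_le hV' 2
    exact mul_le_mul_of_nonneg_right (by linarith) (by positivity)
  obtain ⟨A, hAe⟩ : ∃ A, A = -(e 0 + e 1 + e 2) := ⟨_, rfl⟩
  obtain ⟨B, hBe⟩ : ∃ B, B = e 0 * e 1 + e 0 * e 2 + e 1 * e 2 := ⟨_, rfl⟩
  obtain ⟨C, hCe⟩ : ∃ C, C = -(e 0 * e 1 * e 2) := ⟨_, rfl⟩
  have hA : |A| ≤ (V : ℤ) ^ (2 + s * 3) := by
    rw [hAe]
    exact (ab_neg (ab_add (ab_add (hb 0) (hb 1)) (hb 2))).trans (by linarith)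
  have hB : |B| ≤ (V : ℤ) ^ (2 + s * 3) := by
    rw [hBe]
    exact (ab_add (ab_add (ab_mul (hb 0) (hb 1)) (ab_mul (hb 0) (hb 2)))
      (ab_mul (hb 1) (hb 2))).trans (by linarith)
  have hC : |C| ≤ (V : ℤ) ^ (2 + s * 3) := by
    rw [hCe]
    exact (ab_neg (ab_mul (ab_mul (hb 0) (hb 1)) (hb 2))).trans (by linarith)
  have hsp : Split A B C := ⟨e 0, e 1, e 2, dsc_ne he (by decide), dsc_ne he (by decide),
    dsc_ne he (by decide), hAe, hBe, hCe⟩
  have ha : (A : ℚ) = -((e 0 : ℚ) + e 1 + e 2) := by rw [hAe]; push_cast; ring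
  have hb' : (B : ℚ) = (e 0 : ℚ) * e 1 + e 0 * e 2 + e 1 * e 2 := by rw [hBe]; push_cast; ring
  have hc : (C : ℚ) = -((e 0 : ℚ) * e 1 * e 2) := by rw [hCe]; push_cast; ring
  have hH : ∀ x ∈ S, HB x ((V : ℤ) ^ (2 + s * 3)) := fun x hx =>
    (hS x hx).1.mono (by linarith)
  obtain ⟨Φ, hker⟩ := exists_descent he
  obtain ⟨cl, hcl⟩ := exists_class Φ hker k
  have hpt : ∀ x : ℚ, ∃ P : (cvE e).Point, x ∈ S → ∃ y h, P = .some x y h := by
    intro x
    by_cases hx : x ∈ S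
    · obtain ⟨y, hy⟩ := (hS x hx).2
      exact ⟨.some x y (nonsing_of_disc (disc_cvE he) (by linear_combination -hy)),
        fun _ => ⟨_, _, rfl⟩⟩
    · exact ⟨0, fun h => absurd h hx⟩
  choose pt hpt using hpt
  refine (card_le_mul_card_image_of_maps_to (f := fun x => cl (pt x)) (t := univ)
    (fun _ _ => mem_univ _) ((2 * K₁ + 1) * V) fun b _ => ?_).trans ?_
  swap
  · have h1 : (dsc e).natAbs ≤ V ^ (3 + s * 3) := by
      have h2 : |dsc e| ≤ (V : ℤ) ^ (3 + s * 3) := by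
        refine (ab_mul (ab_mul (ab_sub (hb 0) (hb 1)) (ab_sub (hb 1) (hb 2)))
          (ab_sub (hb 2) (hb 0))).trans ?_
        rw [pow_add, pow_mul]
        have := two_pow_le hV' 3
        have h3 : 8 * U ^ 3 ≤ (V : ℤ) ^ 3 * U ^ 3 :=
          mul_le_mul_of_nonneg_right (by linarith) (by positivity)
        linarith
      rw [Int.abs_eq_natAbs] at h2
      exact_mod_cast h2
    have h2 := pow_omega_le' (q := 4 ^ k) (Nat.one_le_pow _ _ (by norm_num)) (by omega)
      (Int.natAbs_ne_zero.2 he) h1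
    have h3 : #(univ : Finset (Fin k → Fin 2 × Option (dsc e).natAbs.primeFactors → ZMod 2)) =
        4 ^ k * (4 ^ k) ^ #(dsc e).natAbs.primeFactors := by
      simp only [card_univ, Fintype.card_pi, ZMod.card, prod_const, Fintype.card_prod,
        Fintype.card_fin, Fintype.card_option, Fintype.card_coe]
      rw [pow_mul, show (2 : ℕ) ^ 2 = 4 from rfl, ← pow_mul, mul_comm _ k, pow_mul, pow_succ']
    rw [h3]
    calc (2 * K₁ + 1) * V * (4 ^ k * (4 ^ k) ^ #(dsc e).natAbs.primeFactors)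
        ≤ (2 * K₁ + 1) * V * (4 ^ k * ((4 ^ k) ^ (4 ^ k) ^ (3 + s * 3) * V)) := by gcongr
      _ = _ := by ring
  set Sb := S.filter fun x => cl (pt x) = b with hSb
  rcases Sb.eq_empty_or_nonempty with h0 | ⟨x₀, hx₀⟩
  · rw [h0]; simp
  have hx₀S := (mem_filter.1 hx₀).1
  have hQ : ∀ x ∈ Sb.erase x₀, ∃ ξ η : ℚ, (∃ h, pt x - pt x₀ = 2 ^ k • Point.some ξ η h) ∧
      HB ξ ((V : ℤ) ^ (5 + (2 + s * 3) * 6 + k * (4 + (2 + s * 3) * 2))) ∧
      (itr A B C k (ξ.num, (ξ.den : ℤ))).2 ≠ 0 ∧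
      HB (((itr A B C k (ξ.num, (ξ.den : ℤ))).1 : ℚ) / (itr A B C k (ξ.num, (ξ.den : ℤ))).2)
        ((V : ℤ) ^ (5 + (2 + s * 3) * 6)) := by
    intro x hx
    obtain ⟨hne, hx⟩ := mem_erase.1 hx
    have hxS := (mem_filter.1 hx).1
    obtain ⟨Q, hQ⟩ := hcl _ _ ((mem_filter.1 hx).2.trans (mem_filter.1 hx₀).2.symm)
    obtain ⟨y, h, e1⟩ := hpt x hxS
    obtain ⟨y₀, h₀, e0⟩ := hpt x₀ hx₀S
    obtain ⟨x', y', h', e2, e3⟩ := sub_formula (h₀ := h₀) (h₁ := h) hne
    rw [← ha, ← hb', ← hc] at e3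
    have e4 := sub_height hV' hA hB hC hne (hH _ hx₀S) (hH _ hxS) e3
    have e5 : 2 ^ k • Q = .some x' y' h' := by rw [← hQ, e1, e0, e2]
    obtain ⟨ξ, η, hh, e6, e7, e8⟩ := iter_formula ha hb' hc k e5
    exact ⟨ξ, η, ⟨hh, by rw [hQ, e6]⟩, half_height ha hb' hc hV' hA hB hC _ k e5 e4 _ _ _ e6, e7,
      e8 ▸ e4⟩
  choose! ξ η hQ using hQ
  have h1 : #((Sb.erase x₀).image ξ) ≤ K₁ * V := by
    refine hK₁ V hV A B C hsp hA hB hC _ fun z hz => ?_
    obtain ⟨x, hx, rfl⟩ := mem_image.1 hz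
    exact (hQ x hx).2
  have h2 : #(Sb.erase x₀) ≤ #((Sb.erase x₀).image ξ ×ˢ (univ : Finset Bool)) := by
    refine card_le_card_of_injOn (fun x => (ξ x, decide (0 < η x))) (fun x hx => ?_) ?_
    · exact mem_coe.2 (mem_product.2 ⟨mem_image_of_mem _ hx, mem_univ _⟩)
    · intro x hx x' hx' h
      obtain ⟨e1, e2⟩ := Prod.mk.inj h
      obtain ⟨⟨hh, e3⟩, -⟩ := hQ x hx
      obtain ⟨⟨hh', e4⟩, -⟩ := hQ x' hx'
      have e5 : η x = η x' := by
        have a1 := eqn_cvE hh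
        have a2 := eqn_cvE hh'
        rw [e1, ← a2] at a1
        rw [decide_eq_decide] at e2
        rcases sq_eq_sq_iff_eq_or_eq_neg.1 a1 with a3 | a3
        · exact a3
        · by_cases a4 : 0 < η x
          · have := e2.1 a4; linarith
          · have a5 : ¬0 < η x' := fun h => a4 (e2.2 h)
            linarith
      have e6 : pt x = pt x' := by
        rw [← sub_left_inj (a := pt x₀), e3, e4]
        congr 1
        rw [Point.some.injEq]
        exact ⟨e1, e5⟩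
      obtain ⟨y, h, e7⟩ := hpt x (mem_filter.1 (mem_erase.1 hx).2).1
      obtain ⟨y', h', e8⟩ := hpt x' (mem_filter.1 (mem_erase.1 hx').2).1
      rw [e7, e8, Point.some.injEq] at e6
      exact e6.1
  rw [card_product, card_univ, Fintype.card_bool] at h2
  rw [← card_erase_add_one hx₀]
  nlinarith

/-- The uniform bound for products of three linear forms. -/
lemma count_lin (s : ℕ) : ∃ K : ℕ, ∀ V : ℕ, 2 ≤ V → ∀ c α₀ β₀ α₁ β₁ α₂ β₂ : ℤ, c ≠ 0 → α₀ ≠ 0 →
    α₁ ≠ 0 → α₂ ≠ 0 → α₀ * β₁ ≠ α₁ * β₀ → α₁ * β₂ ≠ α₂ * β₁ → α₂ * β₀ ≠ α₀ * β₂ →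
    |c| ≤ (V : ℤ) ^ s → |α₀| ≤ (V : ℤ) ^ s → |β₀| ≤ (V : ℤ) ^ s → |α₁| ≤ (V : ℤ) ^ s →
    |β₁| ≤ (V : ℤ) ^ s → |α₂| ≤ (V : ℤ) ^ s → |β₂| ≤ (V : ℤ) ^ s → ∀ S : Finset ℚ,
      (∀ t ∈ S, HB t ((V : ℤ) ^ s) ∧
        IsSquare (c * ((α₀ * t + β₀) * (α₁ * t + β₁) * (α₂ * t + β₂)))) → #S ≤ K * V ^ 2 := by
  obtain ⟨K, hK⟩ := count_int (s * 5)
  refine ⟨K, fun V hV c α₀ β₀ α₁ β₁ α₂ β₂ hc h0 h1 h2 h01 h12 h20 bc a0 b0 a1 b1 a2 b2 S hS => ?_⟩
  have hV' : (2 : ℤ) ≤ V := by exact_mod_cast hV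
  set U := (V : ℤ) ^ s with hU
  have hU1 : 1 ≤ U := one_le_pow₀ (by linarith)
  have hU4 : U ^ 4 ≤ U ^ 5 := pow_le_pow_right₀ hU1 (by norm_num)
  have hU5 : U ≤ U ^ 5 := le_self_pow₀ hU1 (by norm_num)
  have hl : ((c * α₀ * α₁ * α₂ : ℤ) : ℚ) ≠ 0 := by
    exact_mod_cast mul_ne_zero (mul_ne_zero (mul_ne_zero hc h0) h1) h2
  rw [← card_image_of_injective S (mul_right_injective₀ hl)]
  refine hK V hV ![-(c * β₀ * α₁ * α₂), -(c * β₁ * α₀ * α₂), -(c * β₂ * α₀ * α₁)] ?_ ?_ _ ?_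
  · have : dsc ![-(c * β₀ * α₁ * α₂), -(c * β₁ * α₀ * α₂), -(c * β₂ * α₀ * α₁)] =
        c ^ 3 * (α₀ * α₁ * α₂) *
          ((α₀ * β₁ - α₁ * β₀) * (α₁ * β₂ - α₂ * β₁) * (α₂ * β₀ - α₀ * β₂)) := by
      simp only [dsc, Matrix.cons_val_zero, Matrix.cons_val_one, Matrix.cons_val]
      ring
    rw [this]
    exact mul_ne_zero (mul_ne_zero (pow_ne_zero _ hc) (mul_ne_zero (mul_ne_zero h0 h1) h2))
      (mul_ne_zero (mul_ne_zero (sub_ne_zero.2 h01) (sub_ne_zero.2 h12)) (sub_ne_zero.2 h20))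
  · intro i
    rw [pow_mul]
    fin_cases i
    · exact (ab_neg (ab_mul (ab_mul (ab_mul bc b0) a1) a2)).trans (by linarith)
    · exact (ab_neg (ab_mul (ab_mul (ab_mul bc b1) a0) a2)).trans (by linarith)
    · exact (ab_neg (ab_mul (ab_mul (ab_mul bc b2) a0) a1)).trans (by linarith)
  · intro x hx
    obtain ⟨t, ht, rfl⟩ := mem_image.1 hx
    obtain ⟨h3, r, h4⟩ := hS t ht
    constructor
    · have : ((c * α₀ * α₁ * α₂ : ℤ) : ℚ) * t =
          ((c * α₀ * α₁ * α₂ * t.num : ℤ) : ℚ) / ((t.den : ℤ) : ℚ) := by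
        push_cast
        rw [mul_div_assoc, Rat.num_div_den]
      rw [this, pow_mul]
      refine HB_div (by simp) ?_ (h3.den'.trans hU5)
      exact (ab_mul (ab_mul (ab_mul (ab_mul bc a0) a1) a2) h3.1).trans (by linarith)
    · refine ⟨c * α₀ * α₁ * α₂ * r, ?_⟩
      simp only [Matrix.cons_val_zero, Matrix.cons_val_one, Matrix.cons_val]
      push_cast
      linear_combination ((c : ℚ) * α₀ * α₁ * α₂) ^ 2 * h4

end Pool.Agent.Lib.MP_44626f_nt
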