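import Pool.Agent.Lib.MP_44626f_nt.EB

/-!
The genus one fibrations of the surface of Euler bricks, and the set of fibres that can contain
a brick.
-/

namespace Pool.Agent.Lib.MP_44626f_nt

open Finset

lemma HB.sq {x : ℚ} {T : ℤ} (h : HB x T) : HB (x ^ 2) (T ^ 2) := by
  have : x ^ 2 = ((x.num ^ 2 : ℤ) : ℚ) / (((x.den : ℤ) ^ 2 : ℤ) : ℚ) := by
    push_cast
    rw [← div_pow, Rat.num_div_den]
  rw [this]
  exact HB_div (by simp) (ab_pow h.1 2) (ab_pow h.den' 2)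

lemma ab_one {V : ℤ} (hV : 2 ≤ V) (s : ℕ) : |(1 : ℤ)| ≤ V ^ s := by
  rw [abs_one]; exact one_le_pow₀ (by linarith)

lemma ab_zero {V : ℤ} (hV : 2 ≤ V) (s : ℕ) : |(0 : ℤ)| ≤ V ^ s := by
  rw [abs_zero]; positivity

/-- Fibres of the first kind: one ratio of edges is fixed. -/
lemma fib_one (s : ℕ) : ∃ K : ℕ, ∀ V : ℕ, 2 ≤ V → ∀ σ : ℚ, 0 < σ → σ ≠ 1 → HB σ ((V : ℤ) ^ s) →
    ∀ S : Finset ℚ, (∀ ρ ∈ S, 0 < ρ ∧ HB ρ ((V : ℤ) ^ s) ∧ IsSquare (1 + ρ ^ 2) ∧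
      IsSquare (ρ ^ 2 + σ ^ 2)) → #S ≤ K * V ^ 2 := by
  obtain ⟨K, hK⟩ := count_lin (s * 2)
  refine ⟨K, fun V hV σ h0 h1 hσ S hS => ?_⟩
  have hV' : (2 : ℤ) ≤ V := by exact_mod_cast hV
  have hinj : Set.InjOn (fun ρ : ℚ => ρ ^ 2) S := fun ρ h ρ' h' e =>
    (pow_left_inj₀ (hS ρ h).1.le (hS ρ' h').1.le two_ne_zero).1 e
  rw [← card_image_of_injOn hinj]
  have hn : 0 < σ.num := Rat.num_pos.2 h0
  refine hK V hV 1 1 0 1 1 (σ.den ^ 2) (σ.num ^ 2) one_ne_zero one_ne_zero one_ne_zero (by simp)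
    (by norm_num) ?_ (by simpa using (pow_ne_zero 2 hn.ne').symm) (ab_one hV' _) (ab_one hV' _) (ab_zero hV' _)
    (ab_one hV' _) (ab_one hV' _) (by rw [pow_mul]; exact ab_pow hσ.den' 2)
    (by rw [pow_mul]; exact ab_pow hσ.1 2) _ ?_
  · rw [one_mul, mul_one]
    intro h
    apply h1
    rw [pow_left_inj₀ hn.le (by positivity) two_ne_zero] at h
    rw [← Rat.num_div_den σ, h]
    simp
  · intro t ht
    obtain ⟨ρ, hρ, rfl⟩ := mem_image.1 ht
    obtain ⟨-, h2, ⟨r₁, h3⟩, ⟨r₂, h4⟩⟩ := hS ρ hρ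
    refine ⟨by rw [pow_mul]; exact h2.sq, ρ * r₁ * (σ.den * r₂), ?_⟩
    push_cast
    rw [← Rat.mul_den_eq_num σ]
    linear_combination (ρ * σ.den) ^ 2 * (ρ ^ 2 + σ ^ 2) * h3 + (ρ * σ.den * r₁) ^ 2 * h4

/-- Fibres of the second kind: the product or the quotient of the two parameters is fixed. -/
lemma fib_two (s : ℕ) : ∃ K : ℕ, ∀ V : ℕ, 2 ≤ V → ∀ l : ℚ, 0 < l → l ≠ 1 → HB l ((V : ℤ) ^ s) →
    ∀ S : Finset ℚ, (∀ u ∈ S, 0 < u ∧ HB u ((V : ℤ) ^ s) ∧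
      IsSquare ((1 / u - u) ^ 2 + (l / u - u / l) ^ 2)) → #S ≤ K * V ^ 2 := by
  obtain ⟨K, hK⟩ := count_lin (2 + s * 6)
  refine ⟨K * 2, fun V hV l h0 h1 hl S hS => ?_⟩
  have hV' : (2 : ℤ) ≤ V := by exact_mod_cast hV
  set U := (V : ℤ) ^ s with hU
  have hU1 : 1 ≤ U := hl.one_le
  have hU2 : U ^ 2 ≤ U ^ 6 := pow_le_pow_right₀ hU1 (by norm_num)
  have hU3 : 0 ≤ U ^ 2 := by positivity
  have hW : 4 * U ^ 6 ≤ (V : ℤ) ^ (2 + s * 6) := by
    rw [pow_add, pow_mul]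
    have := two_pow_le hV' 2
    exact mul_le_mul_of_nonneg_right (by linarith) (by positivity)
  let t : ℚ → ℚ := fun u => ((u ^ 2 - l) / (u ^ 2 + l)) ^ 2
  have hn : 0 < l.num := Rat.num_pos.2 h0
  have hd : (0 : ℤ) < l.den := by exact_mod_cast l.pos
  have hnd : l.num - l.den ≠ 0 := by
    intro h
    apply h1
    rw [← Rat.num_div_den l, sub_eq_zero.1 h]
    simp
  have h2 : #(S.image t) ≤ K * V ^ 2 := by
    refine hK V hV (2 * l.num * l.den) 1 0 (-1) 1 ((l.num + l.den) ^ 2) ((l.num - l.den) ^ 2)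
      (by positivity) one_ne_zero (by norm_num) (by positivity) (by norm_num) ?_
      (by simpa using (pow_ne_zero 2 hnd).symm) ?_ (ab_one hV' _) (ab_zero hV' _) (ab_neg (ab_one hV' _))
      (ab_one hV' _) ?_ ?_ _ ?_
    · have a1 : 0 < (l.num + l.den) ^ 2 := by positivity
      have a2 : 0 ≤ (l.num - l.den) ^ 2 := by positivity
      intro h
      linarith
    · exact (ab_mul (ab_mul ab_two hl.1) hl.den').trans (by linarith)
    · exact (ab_pow (ab_add hl.1 hl.den') 2).trans (by linarith)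
    · exact (ab_pow (ab_sub hl.1 hl.den') 2).trans (by linarith)
    · intro z hz
      obtain ⟨u, hu, rfl⟩ := mem_image.1 hz
      obtain ⟨h2, h3, r, h4⟩ := hS u hu
      have hD : u ^ 2 + l ≠ 0 := by positivity
      constructor
      · have a1 : 0 < u.num ^ 2 * l.den + (u.den : ℤ) ^ 2 * l.num := by
          have := u.pos
          positivity
        have a2 : (u ^ 2 - l) / (u ^ 2 + l) =
            ((u.num ^ 2 * l.den - (u.den : ℤ) ^ 2 * l.num : ℤ) : ℚ) /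
              ((u.num ^ 2 * l.den + (u.den : ℤ) ^ 2 * l.num : ℤ) : ℚ) := by
          rw [div_eq_div_iff hD (by exact_mod_cast a1.ne')]
          push_cast
          rw [← Rat.mul_den_eq_num u, ← Rat.mul_den_eq_num l]
          ring
        have a3 := HB_div a1.ne'
          (ab_sub (ab_mul (ab_pow h3.1 2) hl.den') (ab_mul (ab_pow h3.den' 2) hl.1))
          (ab_add (ab_mul (ab_pow h3.1 2) hl.den') (ab_mul (ab_pow h3.den' 2) hl.1))
        rw [← a2] at a3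
        exact a3.sq.mono (by linarith)
      · have h5 : (r * u * l) ^ 2 = (1 + l ^ 2) * (u ^ 4 + l ^ 2) - 4 * l ^ 2 * u ^ 2 := by
          rw [mul_pow, mul_pow, sq r, ← h4]
          field_simp
          ring
        refine ⟨4 * (l.den : ℚ) ^ 2 * l * u * (r * u * l) * (u ^ 2 - l) / (u ^ 2 + l) ^ 3, ?_⟩
        simp only [t]
        push_cast
        rw [← Rat.mul_den_eq_num l]
        generalize r * u * l = R at h5
        generalize (l.den : ℚ) = d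
        field_simp
        linear_combination (-16 * d ^ 4 * l * u ^ 2 * (u ^ 2 - l) ^ 2) * h5
  have h3 : #S ≤ #(S.image t ×ˢ (univ : Finset Bool)) := by
    refine card_le_card_of_injOn (fun u => (t u, decide (u ^ 2 < l))) (fun x hx => ?_) ?_
    · exact mem_coe.2 (mem_product.2 ⟨mem_image_of_mem _ hx, mem_univ _⟩)
    · intro u hu u' hu' h
      obtain ⟨e1, e2⟩ := Prod.mk.inj h
      rw [decide_eq_decide] at e2
      have a0 := (hS u hu).1
      have a0' := (hS u' hu').1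
      have hD : 0 < u ^ 2 + l := by positivity
      have hD' : 0 < u' ^ 2 + l := by positivity
      refine (pow_left_inj₀ a0.le a0'.le two_ne_zero).1 ?_
      rcases sq_eq_sq_iff_eq_or_eq_neg.1 e1 with a3 | a3
      · rw [div_eq_div_iff hD.ne' hD'.ne'] at a3
        apply mul_left_cancel₀ h0.ne'
        linarith
      · rw [← neg_div, div_eq_div_iff hD.ne' hD'.ne'] at a3
        have a4 : u ^ 2 * u' ^ 2 = l ^ 2 := by linarith
        have b1 : 0 < u ^ 2 := by positivity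
        have b2 : 0 < u' ^ 2 := by positivity
        by_cases a5 : u ^ 2 < l
        · have := e2.1 a5
          nlinarith
        · have a6 : ¬u' ^ 2 < l := fun h => a5 (e2.2 h)
          push Not at a5 a6
          nlinarith
  rw [card_product, card_univ, Fintype.card_bool] at h3
  nlinarith

/-- The rationals `r² s / (r'² s')` with `r r' s s' ≤ Y`. -/
def Lam (Y : ℕ) : Finset ℚ :=
  (Icc 1 Y ×ˢ Icc 1 Y ×ˢ Icc 1 Y).biUnion fun z => (Icc 1 (Y / (z.1 * z.2.1 * z.2.2))).image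
    fun s' : ℕ => ((z.1 : ℚ) ^ 2 * z.2.2) / ((z.2.1 : ℚ) ^ 2 * s')

lemma mem_Lam {Y r r' s s' : ℕ} (h1 : 0 < r) (h2 : 0 < r') (h3 : 0 < s) (h4 : 0 < s')
    (h : r * r' * s * s' ≤ Y) : ((r : ℚ) ^ 2 * s) / ((r' : ℚ) ^ 2 * s') ∈ Lam Y := by
  refine mem_biUnion.2 ⟨(r, r', s), ?_, mem_image.2 ⟨s', ?_, rfl⟩⟩
  · simp only [mem_product, mem_Icc]
    refine ⟨⟨h1, le_trans ?_ h⟩, ⟨h2, le_trans ?_ h⟩, ⟨h3, le_trans ?_ h⟩⟩
    · exact Nat.le_of_dvd (by positivity) ⟨r' * s * s', by ring⟩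
    · exact Nat.le_of_dvd (by positivity) ⟨r * s * s', by ring⟩
    · exact Nat.le_of_dvd (by positivity) ⟨r * r' * s', by ring⟩
  · rw [mem_Icc, Nat.le_div_iff_mul_le (by positivity)]
    exact ⟨h4, by linarith⟩

lemma card_Lam (Y : ℕ) : (#(Lam Y) : ℝ) ≤ Y * (1 + Real.log Y) ^ 3 := by
  have h1 : (#(Lam Y) : ℝ) ≤ ∑ z ∈ Icc 1 Y ×ˢ Icc 1 Y ×ˢ Icc 1 Y,
      (Y : ℝ) * ((z.1 : ℝ)⁻¹ * ((z.2.1 : ℝ)⁻¹ * (z.2.2 : ℝ)⁻¹)) := by
    refine le_trans (Nat.cast_le.2 card_biUnion_le) ?_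
    push_cast
    refine sum_le_sum fun z _ => ?_
    refine le_trans (Nat.cast_le.2 card_image_le) ?_
    rw [Nat.card_Icc, Nat.add_sub_cancel]
    refine Nat.cast_div_le.trans (le_of_eq ?_)
    push_cast
    rw [div_eq_mul_inv, mul_inv, mul_inv, mul_assoc]
  have h2 : ∑ i ∈ Icc 1 Y, (i : ℝ)⁻¹ ≤ 1 + Real.log Y := by
    have := harmonic_le_one_add_log Y
    rw [harmonic_eq_sum_Icc] at this
    push_cast at this
    exact this
  have h3 : 0 ≤ ∑ i ∈ Icc 1 Y, (i : ℝ)⁻¹ := sum_nonneg fun _ _ => by positivity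
  refine h1.trans ?_
  rw [← mul_sum, sum_product]
  simp only [← mul_sum]
  rw [← sum_mul, sum_product]
  simp only [← mul_sum]
  rw [← sum_mul]
  refine mul_le_mul_of_nonneg_left ?_ (by positivity)
  calc _ = (∑ i ∈ Icc 1 Y, (i : ℝ)⁻¹) ^ 3 := by ring
    _ ≤ _ := by gcongr

/-- One of the four parameters lies in the small set. -/
lemma four_cases {p q p' q' x Y : ℕ} (hx : 0 < x) (hc : p.Coprime q) (hc' : p'.Coprime q')
    (hd : p * q ∣ x) (hd' : p' * q' ∣ x) (hY : x ^ 3 < (Y + 1) ^ 4) :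
    (p : ℚ) / q ∈ Lam Y ∨ (p' : ℚ) / q' ∈ Lam Y ∨ (p : ℚ) / q * (p' / q') ∈ Lam Y ∨
      (p : ℚ) / q / (p' / q') ∈ Lam Y := by
  have h0 := Nat.pos_of_dvd_of_pos hd hx
  have h0' := Nat.pos_of_dvd_of_pos hd' hx
  have hp : 0 < p := Nat.pos_of_mul_pos_right h0
  have hq : 0 < q := Nat.pos_of_mul_pos_left h0
  have hp' : 0 < p' := Nat.pos_of_mul_pos_right h0'
  have hq' : 0 < q' := Nat.pos_of_mul_pos_left h0'
  have hg : Nat.gcd (p * q) (p' * q') =
      Nat.gcd p p' * Nat.gcd p q' * (Nat.gcd q p' * Nat.gcd q q') := by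
    rw [hc.mul_gcd, hc'.gcd_mul, hc'.gcd_mul]
  have hl : Nat.lcm (p * q) (p' * q') ≤ x := Nat.le_of_dvd hx (Nat.lcm_dvd hd hd')
  have hgl := Nat.gcd_mul_lcm (p * q) (p' * q')
  obtain ⟨h₁, e1⟩ : Nat.gcd p p' * Nat.gcd p q' ∣ p := by
    rw [← hc'.gcd_mul]; exact Nat.gcd_dvd_left _ _
  obtain ⟨h₂, e2⟩ : Nat.gcd q p' * Nat.gcd q q' ∣ q := by
    rw [← hc'.gcd_mul]; exact Nat.gcd_dvd_left _ _
  obtain ⟨k₁, e3⟩ : Nat.gcd p p' * Nat.gcd q p' ∣ p' := by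
    rw [← hc.mul_gcd]; exact Nat.gcd_dvd_right _ _
  obtain ⟨k₂, e4⟩ : Nat.gcd p q' * Nat.gcd q q' ∣ q' := by
    rw [← hc.mul_gcd]; exact Nat.gcd_dvd_right _ _
  rw [hg] at hgl
  have ha : 0 < Nat.gcd p p' := Nat.gcd_pos_of_pos_left _ hp
  have hb : 0 < Nat.gcd p q' := Nat.gcd_pos_of_pos_left _ hp
  have hc2 : 0 < Nat.gcd q p' := Nat.gcd_pos_of_pos_left _ hq
  have hf : 0 < Nat.gcd q q' := Nat.gcd_pos_of_pos_left _ hq
  generalize Nat.lcm (p * q) (p' * q') = L at hl hgl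
  generalize Nat.gcd p p' = a at *
  generalize Nat.gcd p q' = b at *
  generalize Nat.gcd q p' = c at *
  generalize Nat.gcd q q' = f at *
  subst e1 e2 e3 e4
  have g1 : 0 < h₁ := Nat.pos_of_mul_pos_left hp
  have g2 : 0 < h₂ := Nat.pos_of_mul_pos_left hq
  have g3 : 0 < k₁ := Nat.pos_of_mul_pos_left hp'
  have g4 : 0 < k₂ := Nat.pos_of_mul_pos_left hq'
  have hL : L = a * b * c * f * (h₁ * h₂) * (k₁ * k₂) := by
    apply Nat.eq_of_mul_eq_mul_left (show 0 < a * b * (c * f) by positivity)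
    rw [hgl]; ring
  by_contra hcon
  push Not at hcon
  obtain ⟨n1, n2, n3, n4⟩ := hcon
  have m1 : Y + 1 ≤ 1 * 1 * (a * b * h₁) * (c * f * h₂) := by
    by_contra h
    exact n1 (by simpa using mem_Lam one_pos one_pos hp hq (by omega : _ ≤ Y))
  have m2 : Y + 1 ≤ 1 * 1 * (a * c * k₁) * (b * f * k₂) := by
    by_contra h
    exact n2 (by simpa using mem_Lam one_pos one_pos hp' hq' (by omega : _ ≤ Y))
  have m3 : Y + 1 ≤ a * f * (h₁ * k₁) * (h₂ * k₂) := by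
    by_contra h
    apply n3
    convert mem_Lam ha hf (mul_pos g1 g3) (mul_pos g2 g4) (by omega : _ ≤ Y) using 1
    push_cast
    field_simp
  have m4 : Y + 1 ≤ b * c * (h₁ * k₂) * (h₂ * k₁) := by
    by_contra h
    apply n4
    convert mem_Lam hb hc2 (mul_pos g1 g4) (mul_pos g2 g3) (by omega : _ ≤ Y) using 1
    push_cast
    field_simp
  have m5 := Nat.mul_le_mul (Nat.mul_le_mul m1 m2) (Nat.mul_le_mul m3 m4)
  have m6 : L ^ 3 ≤ x ^ 3 := Nat.pow_le_pow_left hl 3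
  have m7 : (Y + 1) ^ 4 ≤ L ^ 3 := by
    rw [hL]
    calc (Y + 1) ^ 4 = (Y + 1) * (Y + 1) * ((Y + 1) * (Y + 1)) := by ring
      _ ≤ _ := m5
      _ = _ := by ring
  omega

/-- The parameter of a right triangle with given legs. -/
lemma exists_param {x y : ℕ} (hx : 0 < x) (hy : 0 < y) (h : IsSquare (x ^ 2 + y ^ 2)) :
    ∃ p q : ℕ, 0 < p ∧ p < q ∧ p.Coprime q ∧ p * q ∣ x ∧
      (y : ℚ) / x = (1 / ((p : ℚ) / q) - p / q) / 2 := by
  obtain ⟨r, hr⟩ := h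
  have h1 : y < r := by nlinarith
  obtain ⟨m, rfl⟩ : ∃ m, r = y + m := ⟨r - y, by omega⟩
  have hm : 0 < m := by omega
  have h2 : m * (2 * y + m) = x * x := by nlinarith
  have h3 : m < x := by nlinarith
  obtain ⟨p, q, hc, e1, e2⟩ := Nat.exists_coprime m x
  have hg : 0 < Nat.gcd m x := Nat.gcd_pos_of_pos_left _ hm
  generalize Nat.gcd m x = g at e1 e2 hg
  have hp : 0 < p := by rw [e1] at hm; exact Nat.pos_of_mul_pos_right hm
  have hpq : p < q := by rw [e1, e2] at h3; exact Nat.lt_of_mul_lt_mul_right h3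
  have h4 : p * (2 * y + m) = q * x := by
    apply Nat.eq_of_mul_eq_mul_left hg
    calc g * (p * (2 * y + m)) = p * g * (2 * y + m) := by ring
      _ = x * x := by rw [← e1, h2]
      _ = q * g * x := by rw [← e2]
      _ = _ := by ring
  have h5 : m * q = p * x := by rw [e1, e2]; ring
  refine ⟨p, q, hp, hpq, hc, hc.mul_dvd_of_dvd_of_dvd
    (hc.dvd_of_dvd_mul_left ⟨_, h4.symm⟩) ⟨g, e2⟩, ?_⟩
  have h4' : (p : ℚ) * (2 * y + m) = q * x := by exact_mod_cast h4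
  have h5' : (m : ℚ) * q = p * x := by exact_mod_cast h5
  have hq : 0 < q := by omega
  field_simp
  linear_combination (q : ℚ) * h4' - (p : ℚ) * h5'

end Pool.Agent.Lib.MP_44626f_nt
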