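import Pool.Agent.Lib.MP_44626f_nt.Lattes
import Pool.Agent.Lib.MP_788af2_nt.Descent

/-!
Heights of sums and of halves of points, and the cosets of `2^k E(ℚ)`.
-/

namespace Pool.Agent.Lib.MP_44626f_nt

open Finset WeierstrassCurve WeierstrassCurve.Affine Pool.Agent.Lib.MP_788af2_nt

lemma ab_add {x y a b : ℤ} (h : |x| ≤ a) (h' : |y| ≤ b) : |x + y| ≤ a + b :=
  (abs_add_le _ _).trans (add_le_add h h')

lemma ab_sub {x y a b : ℤ} (h : |x| ≤ a) (h' : |y| ≤ b) : |x - y| ≤ a + b :=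
  (abs_sub _ _).trans (add_le_add h h')

lemma ab_mul {x y a b : ℤ} (h : |x| ≤ a) (h' : |y| ≤ b) : |x * y| ≤ a * b := by
  rw [abs_mul]; exact mul_le_mul h h' (abs_nonneg _) ((abs_nonneg _).trans h)

lemma ab_pow {x a : ℤ} (h : |x| ≤ a) (n : ℕ) : |x ^ n| ≤ a ^ n := by
  rw [abs_pow]; exact pow_le_pow_left₀ (abs_nonneg _) h n

lemma ab_neg {x a : ℤ} (h : |x| ≤ a) : |-x| ≤ a := by rwa [abs_neg]

lemma ab_two : |(2 : ℤ)| ≤ 2 := by norm_num
lemma ab_four : |(4 : ℤ)| ≤ 4 := by norm_num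
lemma ab_eight : |(8 : ℤ)| ≤ 8 := by norm_num

lemma HB.den' {x : ℚ} {T : ℤ} (h : HB x T) : |(x.den : ℤ)| ≤ T := by simpa using h.2

lemma two_pow_le {V : ℤ} (hV : 2 ≤ V) (j : ℕ) : (2 : ℤ) ^ j ≤ V ^ j := by gcongr

/-- The rational root theorem as a height bound. -/
lemma root_height {x : ℚ} {c₀ c₁ c₂ c₃ c₄ T : ℤ} (h4 : c₄ ≠ 0)
    (h : (c₄ : ℚ) * x ^ 4 + c₃ * x ^ 3 + c₂ * x ^ 2 + c₁ * x + c₀ = 0) (b0 : |c₀| ≤ T)
    (b1 : |c₁| ≤ T) (b2 : |c₂| ≤ T) (b3 : |c₃| ≤ T) (b4 : |c₄| ≤ T) : HB x T := by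
  have hc : IsCoprime x.num (x.den : ℤ) := Rat.isCoprime_num_den x
  have hx : (x.num : ℚ) = x * x.den := (Rat.mul_den_eq_num x).symm
  have h1 : c₄ * x.num ^ 4 + c₃ * x.num ^ 3 * x.den + c₂ * x.num ^ 2 * x.den ^ 2 +
      c₁ * x.num * x.den ^ 3 + c₀ * x.den ^ 4 = 0 := by
    have : ((c₄ * x.num ^ 4 + c₃ * x.num ^ 3 * x.den + c₂ * x.num ^ 2 * x.den ^ 2 +
      c₁ * x.num * x.den ^ 3 + c₀ * x.den ^ 4 : ℤ) : ℚ) = 0 := by
      push_cast
      rw [hx]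
      linear_combination (x.den : ℚ) ^ 4 * h
    exact_mod_cast this
  have key : ∀ {u c : ℤ}, c ≠ 0 → |c| ≤ T → u ∣ c → |u| ≤ T := fun hc0 hT hd =>
    (Int.le_of_dvd (abs_pos.2 hc0) ((abs_dvd_abs _ _).2 hd)).trans hT
  unfold HB
  rw [← Nat.abs_cast (R := ℤ) x.den]
  generalize x.num = u at hc h1
  generalize (x.den : ℤ) = w at hc h1
  refine ⟨?_, key h4 b4 ((hc.symm.pow_right (n := 4)).dvd_of_dvd_mul_right
    ⟨-(c₃ * u ^ 3 + c₂ * u ^ 2 * w + c₁ * u * w ^ 2 + c₀ * w ^ 3), by linear_combination h1⟩)⟩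
  by_cases hu : u = 0
  · rw [hu, abs_zero]; exact (abs_nonneg _).trans b0
  by_cases h0 : c₀ = 0
  swap
  · exact key h0 b0 ((hc.pow_right (n := 4)).dvd_of_dvd_mul_right
      ⟨-(c₄ * u ^ 3 + c₃ * u ^ 2 * w + c₂ * u * w ^ 2 + c₁ * w ^ 3), by linear_combination h1⟩)
  have h2 : c₄ * u ^ 3 + c₃ * u ^ 2 * w + c₂ * u * w ^ 2 + c₁ * w ^ 3 = 0 := by
    apply mul_left_cancel₀ hu; rw [h0] at h1; linear_combination h1
  by_cases h0 : c₁ = 0
  swap
  · exact key h0 b1 ((hc.pow_right (n := 3)).dvd_of_dvd_mul_right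
      ⟨-(c₄ * u ^ 2 + c₃ * u * w + c₂ * w ^ 2), by linear_combination h2⟩)
  have h3 : c₄ * u ^ 2 + c₃ * u * w + c₂ * w ^ 2 = 0 := by
    apply mul_left_cancel₀ hu; rw [h0] at h2; linear_combination h2
  by_cases h0 : c₂ = 0
  swap
  · exact key h0 b2 ((hc.pow_right (n := 2)).dvd_of_dvd_mul_right
      ⟨-(c₄ * u + c₃ * w), by linear_combination h3⟩)
  have h5 : c₄ * u + c₃ * w = 0 := by
    apply mul_left_cancel₀ hu; rw [h0] at h3; linear_combination h3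
  by_cases h0 : c₃ = 0
  swap
  · exact key h0 b3 (hc.dvd_of_dvd_mul_right ⟨-c₄, by linear_combination h5⟩)
  rw [h0, zero_mul, add_zero] at h5
  exact absurd h5 (mul_ne_zero h4 hu)

lemma HB_div {u w T : ℤ} (hw : w ≠ 0) (b1 : |u| ≤ T) (b2 : |w| ≤ T) : HB ((u : ℚ) / w) T := by
  have h0 : |(0 : ℤ)| ≤ T := by rw [abs_zero]; exact (abs_nonneg _).trans b1
  refine root_height (c₃ := -u) hw ?_ h0 h0 h0 (ab_neg b1) b2
  have : (w : ℚ) ≠ 0 := by exact_mod_cast hw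
  push_cast
  field_simp
  ring

section curve
variable {a b c : ℚ}

lemma double_formula {Q : (cv a b c).Point} {x' y' : ℚ} {h' : (cv a b c).Nonsingular x' y'}
    (h : 2 • Q = .some x' y' h') : ∃ x y hh, Q = .some x y hh ∧
      x ^ 3 + a * x ^ 2 + b * x + c ≠ 0 ∧ x' * (4 * (x ^ 3 + a * x ^ 2 + b * x + c)) =
        x ^ 4 - 2 * b * x ^ 2 - 8 * c * x + (b ^ 2 - 4 * a * c) := by
  rcases Q with _ | ⟨x, y, hh⟩
  · exact absurd h.symm (by rw [← Point.zero_def, nsmul_zero]; exact Point.some_ne_zero _)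
  refine ⟨x, y, hh, rfl, ?_⟩
  have h1 : Point.some x y hh + Point.some x y hh + -Point.some x' y' h' = 0 := by
    rw [← h, two_nsmul, add_neg_cancel]
  rw [Point.neg_some] at h1
  obtain ⟨l, n, e1, -, -, e4, e5, e6⟩ := col_of_sum_eq_zero _ _ _ h1
  obtain ⟨q1, q2⟩ := (nonsing_iff ..).1 hh
  have hd : 3 * x ^ 2 + 2 * a * x + b = 2 * l * y := by
    linear_combination (-2 * x) * e4 + e5 - 2 * l * e1
  have hy : y ≠ 0 := by
    rcases q2 with q2 | q2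
    · intro h0; apply q2; rw [hd, h0]; ring
    · exact q2
  refine ⟨by rw [← q1]; positivity, ?_⟩
  linear_combination (-4 * y ^ 2) * e4 - (3 * x ^ 2 + 2 * a * x + b + 2 * l * y) * hd -
    4 * (x' + a + 2 * x) * q1

lemma sub_formula {x₀ y₀ x₁ y₁ : ℚ} {h₀ : (cv a b c).Nonsingular x₀ y₀}
    {h₁ : (cv a b c).Nonsingular x₁ y₁} (hx : x₁ ≠ x₀) :
    ∃ x y hh, Point.some x₁ y₁ h₁ - Point.some x₀ y₀ h₀ = .some x y hh ∧
      (b - (x₀ * x₁ + x₀ * x + x₁ * x)) ^ 2 = 4 * (x₀ + x₁ + x + a) * (x₀ * x₁ * x + c) := by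
  rcases hP : Point.some x₁ y₁ h₁ - Point.some x₀ y₀ h₀ with _ | ⟨x, y, hh⟩
  · rw [← Point.zero_def, sub_eq_zero, Point.some.injEq] at hP
    exact absurd hP.1 hx
  refine ⟨x, y, hh, rfl, ?_⟩
  have h1 : Point.some x₀ y₀ h₀ + -Point.some x₁ y₁ h₁ + Point.some x y hh = 0 := by
    rw [← hP]; abel
  rw [Point.neg_some] at h1
  obtain ⟨l, n, -, -, -, e4, e5, e6⟩ := col_of_sum_eq_zero _ _ _ h1
  rw [← e4, ← e5, ← e6]
  ring

variable {A B C : ℤ}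

lemma iter_formula (ha : (A : ℚ) = a) (hb : (B : ℚ) = b) (hc : (C : ℚ) = c) (k : ℕ)
    {Q : (cv a b c).Point} {x' y' : ℚ} {h' : (cv a b c).Nonsingular x' y'}
    (h : 2 ^ k • Q = .some x' y' h') : ∃ x y hh, Q = .some x y hh ∧
      (itr A B C k (x.num, (x.den : ℤ))).2 ≠ 0 ∧
      x' = ((itr A B C k (x.num, (x.den : ℤ))).1 : ℚ) / (itr A B C k (x.num, (x.den : ℤ))).2 := by
  subst ha hb hc
  induction k generalizing x' y' with
  | zero =>
    refine ⟨x', y', h', by simpa using h, by simp [itr], ?_⟩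
    simp [itr, Rat.num_div_den]
  | succ k ih =>
    rw [pow_succ', mul_nsmul'] at h
    obtain ⟨x₁, y₁, h₁, e1, e2, e3⟩ := double_formula h
    obtain ⟨x, y, hh, e4, e5, e6⟩ := ih e1
    refine ⟨x, y, hh, e4, ?_⟩
    simp only [itr, stp, Int.cast_id]
    generalize (itr A B C k (x.num, (x.den : ℤ))).1 = n at e6
    generalize (itr A B C k (x.num, (x.den : ℤ))).2 = d at e5 e6
    have hd : (d : ℚ) ≠ 0 := by exact_mod_cast e5
    have hn : (n : ℚ) = x₁ * d := by rw [e6]; field_simp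
    have e7 : ((4 * d * (n ^ 3 + A * n ^ 2 * d + B * n * d ^ 2 + C * d ^ 3) : ℤ) : ℚ) =
        4 * d ^ 4 * (x₁ ^ 3 + A * x₁ ^ 2 + B * x₁ + C) := by
      push_cast; rw [hn]; ring
    have e8 : ((4 * d * (n ^ 3 + A * n ^ 2 * d + B * n * d ^ 2 + C * d ^ 3) : ℤ) : ℚ) ≠ 0 := by
      rw [e7]; positivity
    refine ⟨by exact_mod_cast e8, ?_⟩
    rw [eq_div_iff e8, e7]
    push_cast
    rw [hn]
    linear_combination (d : ℚ) ^ 4 * e3

lemma half_height (ha : (A : ℚ) = a) (hb : (B : ℚ) = b) (hc : (C : ℚ) = c) {V : ℤ} (hV : 2 ≤ V)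
    {s : ℕ} (hA : |A| ≤ V ^ s) (hB : |B| ≤ V ^ s) (hC : |C| ≤ V ^ s) (j k : ℕ)
    {Q : (cv a b c).Point} {x' y' : ℚ} {h' : (cv a b c).Nonsingular x' y'}
    (h : 2 ^ k • Q = .some x' y' h') (hx' : HB x' (V ^ j)) :
    ∀ x y hh, Q = .some x y hh → HB x (V ^ (j + k * (4 + s * 2))) := by
  subst ha hb hc
  induction k generalizing Q with
  | zero =>
    rintro x y hh rfl
    rw [pow_zero, one_nsmul, Point.some.injEq] at h
    simpa [h.1] using hx'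
  | succ k ih =>
    rintro x y hh rfl
    rw [pow_succ, mul_nsmul'] at h
    rcases hP : 2 • Point.some x y hh with _ | ⟨x₁, y₁, h₁⟩
    · rw [hP, ← Point.zero_def, nsmul_zero] at h
      exact absurd h.symm (Point.some_ne_zero _)
    have h1 := ih h x₁ y₁ h₁ hP
    obtain ⟨x₂, y₂, h₂, e1, -, e3⟩ := double_formula hP
    obtain ⟨rfl, rfl⟩ := Point.some.inj e1
    set T := V ^ (j + k * (4 + s * 2)) with hT
    set U := V ^ s with hU
    have hu := h1.1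
    have hw := h1.den'
    have hT0 : 1 ≤ T := h1.one_le
    have hU0 : 1 ≤ U := one_le_pow₀ (by linarith)
    have hUT : U * T ≤ U * U * T := by
      have : 0 ≤ U * T := by positivity
      nlinarith
    have hT1 : T ≤ U * T := by nlinarith
    have hle : 16 * (U * U * T) ≤ V ^ (j + (k + 1) * (4 + s * 2)) := by
      have e : j + (k + 1) * (4 + s * 2) = 4 + (s + s + (j + k * (4 + s * 2))) := by ring
      rw [e, pow_add, pow_add, pow_add]
      have := two_pow_le hV 4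
      have h0 : 0 ≤ U * U * T := by positivity
      exact mul_le_mul_of_nonneg_right (by linarith) h0
    refine HB.mono (root_height (c₄ := x₁.den) (c₃ := -(4 * x₁.num))
      (c₂ := -(2 * B * x₁.den) - 4 * A * x₁.num) (c₁ := -(8 * C * x₁.den) - 4 * B * x₁.num)
      (c₀ := (B * B - 4 * A * C) * x₁.den - 4 * C * x₁.num) (by simp) ?_ ?_ ?_ ?_ ?_ ?_) hle
    · push_cast
      rw [← Rat.mul_den_eq_num x₁]
      linear_combination (-(x₁.den : ℚ)) * e3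
    · refine (ab_sub (ab_mul (ab_sub (ab_mul hB hB) (ab_mul (ab_mul ab_four hA) hC)) hw)
        (ab_mul (ab_mul ab_four hC) hu)).trans ?_
      linarith
    · refine (ab_sub (ab_neg (ab_mul (ab_mul ab_eight hC) hw))
        (ab_mul (ab_mul ab_four hB) hu)).trans ?_
      linarith
    · refine (ab_sub (ab_neg (ab_mul (ab_mul ab_two hB) hw))
        (ab_mul (ab_mul ab_four hA) hu)).trans ?_
      linarith
    · refine (ab_neg (ab_mul ab_four hu)).trans ?_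
      linarith
    · linarith

lemma sub_height {V : ℤ} (hV : 2 ≤ V) {s : ℕ} (hA : |A| ≤ V ^ s) (hB : |B| ≤ V ^ s)
    (hC : |C| ≤ V ^ s) {x₀ x₁ x : ℚ} (hx : x₁ ≠ x₀) (h₀ : HB x₀ (V ^ s)) (h₁ : HB x₁ (V ^ s))
    (h : (B - (x₀ * x₁ + x₀ * x + x₁ * x)) ^ 2 = 4 * (x₀ + x₁ + x + A) * (x₀ * x₁ * x + C)) :
    HB x (V ^ (5 + s * 6)) := by
  set W := V ^ s with hW
  have hW0 : 1 ≤ W := h₀.one_le
  have hle : 32 * W ^ 6 ≤ V ^ (5 + s * 6) := by
    rw [pow_add, pow_mul]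
    have := two_pow_le hV 5
    exact mul_le_mul_of_nonneg_right (by linarith) (by positivity)
  have w4 : W ^ 4 ≤ W ^ 6 := pow_le_pow_right₀ hW0 (by norm_num)
  have w5 : W ^ 5 ≤ W ^ 6 := pow_le_pow_right₀ hW0 (by norm_num)
  have w6 : 0 ≤ W ^ 6 := by positivity
  have hσ := ab_add (ab_mul h₀.1 h₁.den') (ab_mul h₁.1 h₀.den')
  have hπ := ab_mul h₀.1 h₁.1
  have hβ := ab_mul h₀.den' h₁.den'
  have hz : |(0 : ℤ)| ≤ 32 * W ^ 6 := by rw [abs_zero]; positivity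
  refine HB.mono (root_height (c₄ := (x₀.num * x₁.den - x₁.num * x₀.den) ^ 2)
    (c₃ := -(2 * (B * (x₀.den * x₁.den) - x₀.num * x₁.num) * (x₀.num * x₁.den + x₁.num * x₀.den)) -
      4 * ((x₀.num * x₁.den + x₁.num * x₀.den + A * (x₀.den * x₁.den)) * (x₀.num * x₁.num) +
        C * (x₀.den * x₁.den) ^ 2))
    (c₂ := (B * (x₀.den * x₁.den) - x₀.num * x₁.num) ^ 2 -
      4 * (x₀.num * x₁.den + x₁.num * x₀.den + A * (x₀.den * x₁.den)) * C * (x₀.den * x₁.den))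
    ?_ ?_ hz hz ?_ ?_ ?_) hle
  · refine pow_ne_zero _ (sub_ne_zero.2 fun h => hx ?_)
    exact (Rat.eq_iff_mul_eq_mul.2 h).symm
  · push_cast
    rw [← Rat.mul_den_eq_num x₀, ← Rat.mul_den_eq_num x₁]
    linear_combination ((x₀.den : ℚ) * x₁.den * x) ^ 2 * h
  · refine (ab_sub (ab_pow (ab_sub (ab_mul hB hβ) hπ) 2)
      (ab_mul (ab_mul (ab_mul ab_four (ab_add hσ (ab_mul hA hβ))) hC) hβ)).trans ?_
    linarith
  · refine (ab_sub (ab_neg (ab_mul (ab_mul ab_two (ab_sub (ab_mul hB hβ) hπ)) hσ))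
      (ab_mul ab_four (ab_add (ab_mul (ab_add hσ (ab_mul hA hβ)) hπ)
        (ab_mul hC (ab_pow hβ 2))))).trans ?_
    linarith
  · refine (ab_pow (ab_sub (ab_mul h₀.1 h₁.den') (ab_mul h₁.1 h₀.den')) 2).trans ?_
    linarith

end curve

/-- Labels for the cosets of `2^k G`. -/
lemma exists_class {G H : Type*} [AddCommGroup G] [AddCommGroup H] (Φ : G →+ H)
    (hker : ∀ P, Φ P = 0 → ∃ Q, P = 2 • Q) (k : ℕ) :
    ∃ c : G → Fin k → H, ∀ P P', c P = c P' → ∃ Q, P - P' = 2 ^ k • Q := by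
  induction k with
  | zero => exact ⟨fun _ => Fin.elim0, fun P P' _ => ⟨P - P', by simp⟩⟩
  | succ k ih =>
    obtain ⟨c, hc⟩ := ih
    have h1 : ∀ P, ∃ Q, P - Function.invFun c (c P) = 2 ^ k • Q := fun P =>
      hc _ _ (Function.invFun_eq ⟨P, rfl⟩).symm
    choose q hq using h1
    refine ⟨fun P => Fin.cons (Φ (q P)) (c P), fun P P' h => ?_⟩
    obtain ⟨h2, h3⟩ := Fin.cons_inj.1 h
    obtain ⟨R, hR⟩ := hker (q P - q P') (by rw [map_sub, h2, sub_self])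
    refine ⟨R, ?_⟩
    rw [pow_succ, mul_nsmul', ← hR, smul_sub, ← hq, ← hq, h3]
    abel

end Pool.Agent.Lib.MP_44626f_nt
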