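import Pool.Agent.Lib.MP_44626f_nt.Det

/-!
Iterates of the duplication map on `x`-coordinates of `y^2 = x^3 + A x^2 + B x + C`, and the
number of rational numbers of bounded height whose image has small height.
-/

namespace Pool.Agent.Lib.MP_44626f_nt

open Polynomial Finset

/-- The homogeneous duplication formula. -/
def stp (A B C : ℤ) {R : Type} [CommRing R] (z : R × R) : R × R :=
  (z.1 ^ 4 - 2 * B * z.1 ^ 2 * z.2 ^ 2 - 8 * C * z.1 * z.2 ^ 3 + (B ^ 2 - 4 * A * C) * z.2 ^ 4,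
    4 * z.2 * (z.1 ^ 3 + A * z.1 ^ 2 * z.2 + B * z.1 * z.2 ^ 2 + C * z.2 ^ 3))

/-- Its iterates. -/
def itr (A B C : ℤ) {R : Type} [CommRing R] : ℕ → R × R → R × R
  | 0, z => z
  | k + 1, z => stp A B C (itr A B C k z)

variable {A B C : ℤ}

lemma itr_map {R S : Type} [CommRing R] [CommRing S] (φ : R →+* S) (k : ℕ) (z : R × R) :
    itr A B C k (φ z.1, φ z.2) = (φ (itr A B C k z).1, φ (itr A B C k z).2) := by
  induction k with
  | zero => rfl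
  | succ k ih => simp [itr, ih, stp, map_ofNat]

lemma itr_smul {R : Type} [CommRing R] (k : ℕ) (t x y : R) :
    itr A B C k (t * x, t * y) =
      (t ^ 4 ^ k * (itr A B C k (x, y)).1, t ^ 4 ^ k * (itr A B C k (x, y)).2) := by
  induction k with
  | zero => simp [itr]
  | succ k ih =>
    simp only [itr, ih, stp, Prod.mk.injEq]
    rw [pow_succ 4 k, pow_mul t]
    constructor <;> ring

lemma itr_dvd (k : ℕ) (z : ℤ × ℤ) : z.2 ∣ (itr A B C k z).2 := by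
  induction k with
  | zero => exact dvd_rfl
  | succ k ih => exact (ih.mul_left _).mul_right _

lemma itr_eval (k : ℕ) (a b : ℤ) (R : Type) [CommRing R] (x : R) (h : (b : R) * x = a) :
    ((itr A B C k (a, b)).1 : R) = (b : R) ^ 4 ^ k * aeval x (itr A B C k ((X : ℤ[X]), 1)).1 ∧
    ((itr A B C k (a, b)).2 : R) = (b : R) ^ 4 ^ k * aeval x (itr A B C k ((X : ℤ[X]), 1)).2 := by
  have h1 := itr_map (A := A) (B := B) (C := C) (Int.castRingHom R) k (a, b)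
  have h2 := itr_map (A := A) (B := B) (C := C) (aeval x : ℤ[X] →ₐ[ℤ] R).toRingHom k (X, 1)
  have h3 := itr_smul (A := A) (B := B) (C := C) k (b : R) x 1
  simp only [eq_intCast] at h1
  simp only [AlgHom.toRingHom_eq_coe, RingHom.coe_coe, aeval_X, map_one] at h2
  rw [h, mul_one, h1, h2] at h3
  exact Prod.mk.inj h3

lemma itr_degree (k : ℕ) : (itr A B C k ((X : ℤ[X]), 1)).1.Monic ∧
    (itr A B C k ((X : ℤ[X]), 1)).1.natDegree = 4 ^ k ∧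
    (itr A B C k ((X : ℤ[X]), 1)).2.natDegree < 4 ^ k := by
  induction k with
  | zero => simp [itr]
  | succ k ih =>
    obtain ⟨h1, h2, h3⟩ := ih
    simp only [itr, stp]
    generalize (itr A B C k ((X : ℤ[X]), 1)).1 = N at h1 h2 ⊢
    generalize (itr A B C k ((X : ℤ[X]), 1)).2 = D at h3 ⊢
    rw [pow_succ 4 k]
    generalize 4 ^ k = n at h2 h3 ⊢
    have h4 : (N ^ 4).natDegree = n * 4 := by rw [h1.natDegree_pow, h2, mul_comm]
    have h5 : (-(2 * B * N ^ 2 * D ^ 2) - 8 * C * N * D ^ 3 +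
        (B ^ 2 - 4 * A * C) * D ^ 4 : ℤ[X]).natDegree ≤ n * 4 - 1 := by
      compute_degree
      omega
    have h6 : N ^ 4 - 2 * B * N ^ 2 * D ^ 2 - 8 * C * N * D ^ 3 + (B ^ 2 - 4 * A * C) * D ^ 4 =
        N ^ 4 + (-(2 * B * N ^ 2 * D ^ 2) - 8 * C * N * D ^ 3 + (B ^ 2 - 4 * A * C) * D ^ 4) := by
      ring
    have h7 : (-(2 * B * N ^ 2 * D ^ 2) - 8 * C * N * D ^ 3 +
        (B ^ 2 - 4 * A * C) * D ^ 4 : ℤ[X]).natDegree < (N ^ 4).natDegree := by omega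
    rw [h6]
    refine ⟨(h1.pow 4).add_of_left (degree_lt_degree h7), ?_, ?_⟩
    · rw [natDegree_add_eq_left_of_natDegree_lt h7, h4]
    · have : (4 * D * (N ^ 3 + A * N ^ 2 * D + B * N * D ^ 2 + C * D ^ 3) : ℤ[X]).natDegree ≤
          n * 4 - 1 := by
        compute_degree
        omega
      omega

/-- The cubic `x^3 + A x^2 + B x + C` has three distinct integral roots. -/
def Split (A B C : ℤ) : Prop :=
  ∃ e₀ e₁ e₂ : ℤ, e₀ ≠ e₁ ∧ e₀ ≠ e₂ ∧ e₁ ≠ e₂ ∧ A = -(e₀ + e₁ + e₂) ∧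
    B = e₀ * e₁ + e₀ * e₂ + e₁ * e₂ ∧ C = -(e₀ * e₁ * e₂)

lemma stp_ne (h : Split A B C) {z : ℂ × ℂ} (hz : z.1 ≠ 0 ∨ z.2 ≠ 0) :
    (stp A B C z).1 ≠ 0 ∨ (stp A B C z).2 ≠ 0 := by
  obtain ⟨e₀, e₁, e₂, h01, h02, h12, rfl, rfl, rfl⟩ := h
  obtain ⟨n, d⟩ := z
  have n01 : (e₀ : ℂ) - e₁ ≠ 0 := sub_ne_zero.2 (by exact_mod_cast h01)
  have n02 : (e₀ : ℂ) - e₂ ≠ 0 := sub_ne_zero.2 (by exact_mod_cast h02)
  have n12 : (e₁ : ℂ) - e₂ ≠ 0 := sub_ne_zero.2 (by exact_mod_cast h12)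
  by_contra hc
  push Not at hc
  obtain ⟨h1, h2⟩ := hc
  simp only [stp] at h1 h2 hz
  push_cast at h1 h2
  by_cases hd : d = 0
  · subst hd
    have : n ^ 4 = 0 := by linear_combination h1
    simp [pow_eq_zero_iff (by norm_num : (4 : ℕ) ≠ 0) |>.1 this] at hz
  have h3 : (n - e₀ * d) * (n - e₁ * d) * (n - e₂ * d) = 0 := by
    apply mul_left_cancel₀ (mul_ne_zero (by norm_num : (4 : ℂ) ≠ 0) hd)
    linear_combination h2
  rcases mul_eq_zero.1 h3 with h3 | h3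
  · rcases mul_eq_zero.1 h3 with h3 | h3
    · rw [sub_eq_zero.1 h3] at h1
      exact (by positivity : (((e₀ : ℂ) - e₁) * (e₀ - e₂)) ^ 2 * d ^ 4 ≠ 0)
        (by linear_combination h1)
    · rw [sub_eq_zero.1 h3] at h1
      exact (by positivity : (((e₀ : ℂ) - e₁) * (e₁ - e₂)) ^ 2 * d ^ 4 ≠ 0)
        (by linear_combination h1)
  · rw [sub_eq_zero.1 h3] at h1
    exact (by positivity : (((e₀ : ℂ) - e₂) * (e₁ - e₂)) ^ 2 * d ^ 4 ≠ 0)
      (by linear_combination h1)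

lemma itr_coprime (h : Split A B C) (k : ℕ) :
    IsCoprime ((itr A B C k ((X : ℤ[X]), 1)).1.map (Int.castRingHom ℚ))
      ((itr A B C k ((X : ℤ[X]), 1)).2.map (Int.castRingHom ℚ)) := by
  rw [isCoprime_iff_aeval_ne_zero_of_isAlgClosed ℚ ℂ]
  intro a
  have h1 : (itr A B C k (a, 1)).1 ≠ 0 ∨ (itr A B C k (a, 1)).2 ≠ 0 := by
    induction k with
    | zero => exact Or.inr one_ne_zero
    | succ k ih => exact stp_ne h ih
  have h2 := itr_map (A := A) (B := B) (C := C) (aeval a : ℤ[X] →ₐ[ℤ] ℂ).toRingHom k (X, 1)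
  simp only [AlgHom.toRingHom_eq_coe, RingHom.coe_coe, aeval_X, map_one] at h2
  rw [h2] at h1
  rwa [← algebraMap_int_eq, aeval_map_algebraMap, aeval_map_algebraMap]

lemma stp_bound {U T : ℤ} (hU : 1 ≤ U) (hA : |A| ≤ U) (hB : |B| ≤ U) (hC : |C| ≤ U) {z : ℤ × ℤ}
    (h1 : |z.1| ≤ T) (h2 : |z.2| ≤ T) :
    |(stp A B C z).1| ≤ 16 * U ^ 2 * T ^ 4 ∧ |(stp A B C z).2| ≤ 16 * U ^ 2 * T ^ 4 := by
  obtain ⟨n, d⟩ := z
  simp only [stp, Int.cast_id] at h1 h2 ⊢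
  have hT : 0 ≤ T := (abs_nonneg _).trans h1
  have hU2 : U ≤ U ^ 2 := by nlinarith
  have hU3 : 1 ≤ U ^ 2 := hU.trans hU2
  have hT4 : 0 ≤ T ^ 4 := by positivity
  constructor
  · have a1 : |n ^ 4| ≤ T ^ 4 := by rw [abs_pow]; gcongr
    have a2 : |2 * B * n ^ 2 * d ^ 2| ≤ 2 * U * T ^ 2 * T ^ 2 := by
      simp only [abs_mul, abs_pow, abs_two]; gcongr
    have a3 : |8 * C * n * d ^ 3| ≤ 8 * U * T * T ^ 3 := by
      simp only [abs_mul, abs_pow, Nat.abs_ofNat]; gcongr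
    have a4 : |B ^ 2 - 4 * A * C| ≤ U ^ 2 + 4 * U * U := by
      refine (abs_sub _ _).trans ?_
      simp only [abs_mul, abs_pow, Nat.abs_ofNat]; gcongr
    have a5 : |(B ^ 2 - 4 * A * C) * d ^ 4| ≤ (U ^ 2 + 4 * U * U) * T ^ 4 := by
      simp only [abs_mul, abs_pow]; gcongr
    have b1 := mul_le_mul_of_nonneg_right hU2 hT4
    have b2 := mul_le_mul_of_nonneg_right hU3 hT4
    rw [abs_le] at a1 a2 a3 a5 ⊢
    constructor <;> nlinarith
  · have a1 : |n ^ 3 + A * n ^ 2 * d + B * n * d ^ 2 + C * d ^ 3| ≤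
        T ^ 3 + U * T ^ 2 * T + U * T * T ^ 2 + U * T ^ 3 := by
      refine (abs_add_le _ _).trans (add_le_add ((abs_add_le _ _).trans
        (add_le_add ((abs_add_le _ _).trans (add_le_add ?_ ?_)) ?_)) ?_) <;>
        simp only [abs_mul, abs_pow] <;> gcongr
    have a2 : |4 * d * (n ^ 3 + A * n ^ 2 * d + B * n * d ^ 2 + C * d ^ 3)| ≤
        4 * T * (T ^ 3 + U * T ^ 2 * T + U * T * T ^ 2 + U * T ^ 3) := by
      rw [abs_mul, abs_mul, Nat.abs_ofNat]; gcongr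
    have b1 := mul_le_mul_of_nonneg_right hU2 hT4
    have b2 := mul_le_mul_of_nonneg_right hU3 hT4
    nlinarith

lemma itr_bound (s k j : ℕ) : ∃ j' : ℕ, ∀ V : ℤ, 2 ≤ V → ∀ A B C : ℤ, |A| ≤ V ^ s → |B| ≤ V ^ s →
    |C| ≤ V ^ s → ∀ z : ℤ × ℤ, |z.1| ≤ V ^ j → |z.2| ≤ V ^ j →
      |(itr A B C k z).1| ≤ V ^ j' ∧ |(itr A B C k z).2| ≤ V ^ j' := by
  induction k with
  | zero => exact ⟨j, fun V _ A B C _ _ _ z h1 h2 => ⟨h1, h2⟩⟩
  | succ k ih =>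
    obtain ⟨j', h⟩ := ih
    refine ⟨4 + s * 2 + j' * 4, fun V hV A B C hA hB hC z h1 h2 => ?_⟩
    obtain ⟨h3, h4⟩ := h V hV A B C hA hB hC z h1 h2
    have h5 := stp_bound (one_le_pow₀ (by linarith)) hA hB hC h3 h4
    have h6 : 16 * (V ^ s) ^ 2 * (V ^ j') ^ 4 ≤ V ^ (4 + s * 2 + j' * 4) := by
      rw [pow_add, pow_add, pow_mul, pow_mul]
      have : (16 : ℤ) ≤ V ^ 4 := by
        calc (16 : ℤ) = 2 ^ 4 := by norm_num
          _ ≤ V ^ 4 := by gcongr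
      gcongr
    exact ⟨h5.1.trans h6, h5.2.trans h6⟩

lemma exists_primes (V : ℕ) (hV : V ≠ 0) (r : ℕ) :
    ∃ P : Finset ℕ, #P = r ∧ ∀ p ∈ P, p.Prime ∧ V < p ∧ p ≤ 2 ^ r * V := by
  induction r with
  | zero => exact ⟨∅, rfl, by simp⟩
  | succ r ih =>
    obtain ⟨P, h1, h2⟩ := ih
    obtain ⟨p, hp, h3, h4⟩ := Nat.exists_prime_lt_and_le_two_mul (2 ^ r * V) (by positivity)
    have h5 : V ≤ 2 ^ r * V := Nat.le_mul_of_pos_left _ (by positivity)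
    refine ⟨insert p P, ?_, ?_⟩
    · rw [card_insert_of_notMem fun h => absurd (h2 p h).2.2 (by omega), h1]
    · intro q hq
      rw [pow_succ]
      rcases mem_insert.1 hq with rfl | hq
      · exact ⟨hp, by omega, by linarith⟩
      · obtain ⟨a, b, c⟩ := h2 q hq
        exact ⟨a, b, by nlinarith⟩

/-- Few rationals of bounded height have an image of small height under a high iterate. -/
lemma lattes_count (s c₀ : ℕ) : ∃ k : ℕ, ∀ c₁ : ℕ, ∃ K : ℕ, ∀ V : ℕ, 2 ≤ V → ∀ A B C : ℤ,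
    Split A B C → |A| ≤ (V : ℤ) ^ s → |B| ≤ (V : ℤ) ^ s → |C| ≤ (V : ℤ) ^ s → ∀ T : Finset ℚ,
      (∀ ξ ∈ T, HB ξ ((V : ℤ) ^ c₁) ∧ (itr A B C k (ξ.num, (ξ.den : ℤ))).2 ≠ 0 ∧
        HB (((itr A B C k (ξ.num, (ξ.den : ℤ))).1 : ℚ) / (itr A B C k (ξ.num, (ξ.den : ℤ))).2)
          ((V : ℤ) ^ c₀)) → #T ≤ K * V := by
  classical
  obtain ⟨m, hm⟩ : ∃ m, m = 2 * c₀ + 3 := ⟨_, rfl⟩
  refine ⟨m, fun c₁ => ?_⟩
  obtain ⟨Dg, hDg⟩ : ∃ Dg, Dg = 2 * (c₁ + 1) * m := ⟨_, rfl⟩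
  obtain ⟨j, hj⟩ := itr_bound s m c₁
  refine ⟨(j + 1) * ((m + Dg * 4 ^ m) * 2 ^ (j + 1)), fun V hV A B C hS hA hB hC T hT => ?_⟩
  have hV' : (2 : ℤ) ≤ V := by exact_mod_cast hV
  obtain ⟨P, hP1, hP2⟩ := exists_primes V (by omega) (j + 1)
  let n : ℚ → ℤ := fun ξ => (itr A B C m (ξ.num, (ξ.den : ℤ))).1
  let d : ℚ → ℤ := fun ξ => (itr A B C m (ξ.num, (ξ.den : ℤ))).2
  have hsub : T ⊆ P.biUnion fun p => T.filter fun ξ => ¬(p : ℤ) ∣ d ξ := by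
    intro ξ hξ
    obtain ⟨h1, h2, -⟩ := hT ξ hξ
    by_contra hc
    simp only [mem_biUnion, mem_filter, not_exists, not_and, not_not] at hc
    have h3 : ∏ p ∈ P, p ∣ (d ξ).natAbs :=
      Finset.prod_primes_dvd _ (fun p hp => (hP2 p hp).1.prime)
        fun p hp => Int.natCast_dvd.1 (hc p hp hξ)
    have h4 := Nat.le_of_dvd (Int.natAbs_pos.2 h2) h3
    have h5 : V ^ (j + 1) ≤ ∏ p ∈ P, p := by
      rw [← hP1]
      exact Finset.pow_card_le_prod _ _ _ fun p hp => (hP2 p hp).2.1.le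
    have h6 : |d ξ| ≤ (V : ℤ) ^ j :=
      (hj V hV' A B C hA hB hC _ h1.1 (by simpa using h1.2)).2
    have h7 : (d ξ).natAbs ≤ V ^ j := by
      rw [Int.abs_eq_natAbs] at h6
      exact_mod_cast h6
    have h8 : V ^ j < V ^ (j + 1) := Nat.pow_lt_pow_right (by omega) (by omega)
    exact absurd ((h5.trans h4).trans h7) (not_le.2 h8)
  refine (card_le_card hsub).trans (card_biUnion_le.trans ?_)
  rw [mul_assoc, ← hP1, ← smul_eq_mul]
  refine Finset.sum_le_card_nsmul _ _ _ fun p hp => ?_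
  obtain ⟨hp1, hp2, hp3⟩ := hP2 p hp
  have : Fact p.Prime := ⟨hp1⟩
  have hden : ∀ ξ : ℚ, ¬(p : ℤ) ∣ d ξ → ¬(p : ℤ) ∣ ξ.den := fun ξ h h' =>
    h (h'.trans (itr_dvd m (ξ.num, (ξ.den : ℤ))))
  refine (card_le_mul_card_image_of_maps_to
    (f := fun ξ : ℚ => (ξ.num : ZMod p) / (ξ.den : ZMod p)) (t := univ) (fun _ _ => mem_univ _)
    (m + Dg * 4 ^ m) fun b _ => ?_).trans ?_
  swap
  · rw [card_univ, ZMod.card, hP1, mul_assoc]
    exact Nat.mul_le_mul_left _ hp3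
  obtain ⟨hN1, hN2, hN3⟩ := itr_degree (A := A) (B := B) (C := C) m
  refine det_method (A := (V : ℤ) ^ c₀) (B := (V : ℤ) ^ c₁) (by omega) ?_ hN2.le hN3.le
    (itr_coprime hS m) hp1 _ n d ?_ ?_ ?_ ?_ ?_ ?_ ?_
  · rw [hN1.natDegree_map, hN2]
    exact (Nat.lt_pow_self (by norm_num)).le
  · intro ξ _ R _ x hx
    simpa using itr_eval (A := A) (B := B) (C := C) m ξ.num ξ.den R x (by simpa using hx)
  · intro ξ hξ
    exact (mem_filter.1 (mem_filter.1 hξ).1).2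
  · intro ξ hξ
    exact hden ξ (mem_filter.1 (mem_filter.1 hξ).1).2
  · intro ξ hξ ξ' hξ'
    have h1 := (mem_filter.1 hξ).2.trans (mem_filter.1 hξ').2.symm
    have h2 := hden ξ (mem_filter.1 (mem_filter.1 hξ).1).2
    have h3 := hden ξ' (mem_filter.1 (mem_filter.1 hξ').1).2
    rw [← ZMod.intCast_zmod_eq_zero_iff_dvd] at h2 h3 ⊢
    push_cast at h2 h3 ⊢
    rw [div_eq_div_iff h2 h3] at h1
    rw [h1, sub_self]
  · intro ξ hξ
    exact (hT ξ (mem_filter.1 (mem_filter.1 hξ).1).1).1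
  · intro ξ hξ
    exact (hT ξ (mem_filter.1 (mem_filter.1 hξ).1).1).2.2
  · have h1 : (((Dg + 1) * m : ℕ) : ℤ) ≤ (V : ℤ) ^ (Dg + m) := by
      have a1 : Dg + 1 ≤ V ^ Dg := Nat.lt_pow_self (by omega)
      have a2 : m ≤ V ^ m := (Nat.lt_pow_self (by omega)).le
      rw [pow_add]
      exact_mod_cast Nat.mul_le_mul a1 a2
    have h2 : (Dg + m + (c₀ * Dg + c₁ * m)) * 2 ≤ (Dg + 1) * m - 1 := by
      have a1 : (Dg + 1) * m = (2 * c₀ + 3) * Dg + m := by rw [← hm]; ring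
      have a2 : (Dg + m + (c₀ * Dg + c₁ * m)) * 2 = (2 * c₀ + 2) * Dg + 2 * (c₁ + 1) * m := by ring
      have a3 : (2 * c₀ + 3) * Dg = (2 * c₀ + 2) * Dg + Dg := by ring
      omega
    have h3 : (Dg + 1) * m - 1 ≠ 0 := by
      have : (Dg + 1) * m = Dg * m + m := by ring
      omega
    calc _ ≤ ((V : ℤ) ^ (Dg + m) * (((V : ℤ) ^ c₀) ^ Dg * ((V : ℤ) ^ c₁) ^ m)) ^ 2 := by gcongr
      _ = (V : ℤ) ^ ((Dg + m + (c₀ * Dg + c₁ * m)) * 2) := by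
          rw [← pow_mul, ← pow_mul, ← pow_add, ← pow_add, ← pow_mul]
      _ ≤ (V : ℤ) ^ ((Dg + 1) * m - 1) := pow_le_pow_right₀ (by linarith) h2
      _ < (p : ℤ) ^ ((Dg + 1) * m - 1) :=
          pow_lt_pow_left₀ (by exact_mod_cast hp2) (by positivity) h3

end Pool.Agent.Lib.MP_44626f_nt
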